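import Mathlib

set_option autoImplicit false
set_option linter.unusedSectionVars false

open MeasureTheory Filter Topology Set
open scoped ContDiff

namespace Pool.Agent.R217.NF

/-- The cutoff at the origin. -/
noncomputable def ch (δ : ℝ) (hδ : 0 < δ) : ContDiffBump (0 : ℝ) := ⟨δ / 2, δ, by positivity, by linarith⟩

/-- The regular part of the kernel. -/
noncomputable def rho (a δ : ℝ) (hδ : 0 < δ) (z : ℝ) : ℝ := (1 - ch δ hδ z) * |z| ^ (-a)

variable {a δ : ℝ} {hδ : 0 < δ}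

lemma ch_one {z : ℝ} (h : |z| ≤ δ / 2) : ch δ hδ z = 1 :=
  (ch δ hδ).one_of_mem_closedBall (by
    rw [mem_closedBall_zero_iff, Real.norm_eq_abs]; exact h)

lemma ch_zero {z : ℝ} (h : δ ≤ |z|) : ch δ hδ z = 0 :=
  (ch δ hδ).zero_of_le_dist (by rw [dist_zero_right, Real.norm_eq_abs]; exact h)

lemma ch_even (z : ℝ) : ch δ hδ (-z) = ch δ hδ z := (ch δ hδ).neg z

lemma rho_even (z : ℝ) : rho a δ hδ (-z) = rho a δ hδ z := by
  unfold rho; rw [ch_even, abs_neg]

lemma rho_nonneg (z : ℝ) : 0 ≤ rho a δ hδ z := by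
  unfold rho
  apply mul_nonneg
  · have := (ch δ hδ).le_one (x := z); linarith
  · positivity

lemma rho_smooth : ContDiff ℝ ∞ (rho a δ hδ) := by
  rw [contDiff_iff_contDiffAt]
  intro z
  by_cases hz : z = 0
  · have h1 : rho a δ hδ =ᶠ[𝓝 z] fun _ => 0 := by
      have : Metric.ball (0:ℝ) (δ / 2) ∈ 𝓝 z := by
        rw [hz]; exact Metric.ball_mem_nhds _ (by positivity)
      filter_upwards [this] with y hy
      rw [mem_ball_zero_iff, Real.norm_eq_abs] at hy
      unfold rho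
      rw [ch_one hy.le]; ring
    exact contDiffAt_const.congr_of_eventuallyEq h1
  · unfold rho
    apply ContDiffAt.mul
    · exact contDiffAt_const.sub (ch δ hδ).contDiff.contDiffAt
    · have h1 : ContDiffAt ℝ ∞ (fun z : ℝ => |z|) z := contDiffAt_abs hz
      exact h1.rpow_const_of_ne (by positivity)

/-- Smooth functions with uniformly decaying derivatives. -/
def RC (a : ℝ) (f : ℝ → ℝ) : Prop :=
  ContDiff ℝ ∞ f ∧ ∀ j : ℕ, ∃ C : ℝ, 0 ≤ C ∧ ∀ z, |iteratedDeriv j f z| ≤ C * (1 + |z|) ^ (-a)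

lemma RC.deriv {f : ℝ → ℝ} (h : RC a f) : RC a (deriv f) := by
  refine ⟨(contDiff_infty_iff_deriv.1 h.1).2, fun j => ?_⟩
  obtain ⟨C, hC0, hC⟩ := h.2 (j + 1)
  refine ⟨C, hC0, fun z => ?_⟩
  rw [← iteratedDeriv_succ']
  exact hC z

lemma rho_RC (ha : 0 < a) : RC a (rho a δ hδ) := by
  refine ⟨rho_smooth, fun j => ?_⟩
  -- bounded on a compact set
  have hcont : Continuous (iteratedDeriv j (rho a δ hδ)) :=
    rho_smooth.continuous_iteratedDeriv j (by exact_mod_cast le_top)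
  obtain ⟨B, hB⟩ := (isCompact_Icc (a := -δ) (b := δ)).exists_bound_of_continuousOn
    hcont.continuousOn
  have hB0 : 0 ≤ B := (norm_nonneg _).trans (hB 0 ⟨by linarith, hδ.le⟩)
  obtain ⟨c, hc⟩ : ∃ c, c = (descPochhammer ℝ j).eval (-a) := ⟨_, rfl⟩
  have hpos : ∀ z, δ < z → |iteratedDeriv j (rho a δ hδ) z| ≤ |c| * δ ^ (-(j:ℝ)) * z ^ (-a) := by
    intro z hz
    have hz0 : 0 < z := hδ.trans hz
    have h1 : rho a δ hδ =ᶠ[𝓝 z] fun z => z ^ (-a) := by
      filter_upwards [lt_mem_nhds hz] with y hy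
      have hy0 : 0 < y := hδ.trans hy
      unfold rho
      rw [ch_zero (by rw [abs_of_pos hy0]; exact hy.le), abs_of_pos hy0]; ring
    rw [h1.iteratedDeriv_eq, iteratedDeriv_eq_iterate, Real.iter_deriv_rpow_const, ← hc, abs_mul,
      mul_assoc]
    apply mul_le_mul_of_nonneg_left _ (abs_nonneg _)
    rw [abs_of_nonneg (by positivity), show -a - (j:ℝ) = -(j:ℝ) + -a by ring,
      Real.rpow_add hz0]
    apply mul_le_mul_of_nonneg_right _ (by positivity)
    exact Real.rpow_le_rpow_of_nonpos hδ hz.le (by simp)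
  have hneg : ∀ z, |iteratedDeriv j (rho a δ hδ) z| = |iteratedDeriv j (rho a δ hδ) (-z)| := by
    intro z
    have h1 : (fun x => rho a δ hδ (-x)) = rho a δ hδ := by funext x; exact rho_even x
    have h2 := iteratedDeriv_comp_neg j (rho a δ hδ) z
    rw [h1] at h2
    rw [h2, smul_eq_mul, abs_mul, abs_pow, abs_neg, abs_one, one_pow, one_mul]
  have hout : ∀ z, δ < |z| → |iteratedDeriv j (rho a δ hδ) z| ≤ |c| * δ ^ (-(j:ℝ)) * |z| ^ (-a) := by
    intro z hz
    rcases le_total 0 z with h | h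
    · rw [abs_of_nonneg h] at hz ⊢
      exact hpos z hz
    · rw [hneg z, abs_of_nonpos h]
      rw [abs_of_nonpos h] at hz
      exact hpos _ hz
  obtain ⟨K, hK⟩ : ∃ K, K = ((1 + δ) / δ) ^ a := ⟨_, rfl⟩
  have hK0 : 0 ≤ K := by rw [hK]; positivity
  refine ⟨max (B * (1 + δ) ^ a) (|c| * δ ^ (-(j:ℝ)) * K), by positivity, fun z => ?_⟩
  have hz0 : 0 < 1 + |z| := by positivity
  rcases le_or_gt |z| δ with h | h
  · have h1 : |iteratedDeriv j (rho a δ hδ) z| ≤ B := hB z (abs_le.1 h)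
    calc |iteratedDeriv j (rho a δ hδ) z| ≤ B := h1
      _ = B * (1 + |z|) ^ a * (1 + |z|) ^ (-a) := by
          rw [mul_assoc, ← Real.rpow_add hz0, add_neg_cancel, Real.rpow_zero, mul_one]
      _ ≤ B * (1 + δ) ^ a * (1 + |z|) ^ (-a) := by gcongr
      _ ≤ _ := mul_le_mul_of_nonneg_right (le_max_left _ _) (by positivity)
  · have hzp : 0 < |z| := hδ.trans h
    have h2 : |z| ^ (-a) ≤ K * (1 + |z|) ^ (-a) := by
      have h3 : 1 + |z| ≤ (1 + δ) / δ * |z| := by
        rw [div_mul_eq_mul_div, le_div_iff₀ hδ]; nlinarith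
      have h4 := Real.rpow_le_rpow hz0.le h3 ha.le
      rw [Real.mul_rpow (by positivity) hzp.le, ← hK] at h4
      rw [Real.rpow_neg hzp.le, Real.rpow_neg hz0.le, ← div_eq_mul_inv, inv_eq_one_div,
        div_le_div_iff₀ (by positivity) (by positivity)]
      linarith
    calc |iteratedDeriv j (rho a δ hδ) z| ≤ |c| * δ ^ (-(j:ℝ)) * |z| ^ (-a) := hout z h
      _ ≤ |c| * δ ^ (-(j:ℝ)) * (K * (1 + |z|) ^ (-a)) := by gcongr
      _ = |c| * δ ^ (-(j:ℝ)) * K * (1 + |z|) ^ (-a) := by ring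
      _ ≤ _ := mul_le_mul_of_nonneg_right (le_max_right _ _) (by positivity)

lemma RC.bound {f : ℝ → ℝ} (h : RC a f) : ∃ C : ℝ, 0 ≤ C ∧ ∀ z, |f z| ≤ C * (1 + |z|) ^ (-a) := by
  obtain ⟨C, hC0, hC⟩ := h.2 0
  refine ⟨C, hC0, fun z => ?_⟩
  have := hC z
  rwa [iteratedDeriv_zero] at this

lemma wint (ha : 1 < a) : Integrable (fun z : ℝ => (1 + |z|) ^ (-a)) := by
  have := integrable_one_add_norm (E := ℝ) (μ := volume) (r := a) (by simpa using ha)
  simpa only [Real.norm_eq_abs] using this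

lemma RC.integrable (ha : 1 < a) {f : ℝ → ℝ} (h : RC a f) : Integrable f := by
  obtain ⟨C, hC0, hC⟩ := h.bound
  exact ((wint ha).const_mul C).mono' h.1.continuous.aestronglyMeasurable
    (Eventually.of_forall hC)

lemma RC.int_mul (ha : 1 < a) {f : ℝ → ℝ} (h : RC a f) {U : ℝ → ℝ} (hU : Measurable U) {M : ℝ}
    (hM : ∀ x, |U x| ≤ M) (y : ℝ) : Integrable (fun x => f (y - x) * U x) := by
  have h1 : Integrable (fun x => f (y - x)) := (h.integrable ha).comp_sub_left y
  have := h1.bdd_mul hU.aestronglyMeasurable (c := M) (Eventually.of_forall hM)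
  refine this.congr (Eventually.of_forall fun x => ?_)
  ring

lemma phi_deriv (ha : 1 < a) {f : ℝ → ℝ} (h : RC a f) {U : ℝ → ℝ} (hU : Measurable U) {M : ℝ}
    (hM : ∀ x, |U x| ≤ M) (y : ℝ) :
    HasDerivAt (fun y => ∫ x, f (y - x) * U x) (∫ x, deriv f (y - x) * U x) y := by
  obtain ⟨C, hC0, hC⟩ := h.deriv.bound
  have hM0 : 0 ≤ M := (abs_nonneg _).trans (hM 0)
  have hd : Differentiable ℝ f := h.1.differentiable (by simp)
  have hb : Integrable (fun x => C * 2 ^ a * (1 + |y - x|) ^ (-a) * M) :=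
    (((wint ha).comp_sub_left y).const_mul (C * 2 ^ a)).mul_const M
  refine (hasDerivAt_integral_of_dominated_loc_of_deriv_le
    (F := fun y x => f (y - x) * U x) (F' := fun y x => _root_.deriv f (y - x) * U x)
    (s := Metric.ball y 1) (Metric.ball_mem_nhds y one_pos) ?_ (h.int_mul ha hU hM y) ?_ ?_ hb
    ?_).2
  · exact Eventually.of_forall fun z => (h.int_mul ha hU hM z).1
  · exact (h.deriv.int_mul ha hU hM y).1
  · refine Eventually.of_forall fun x z hz => ?_
    rw [Metric.mem_ball, Real.dist_eq] at hz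
    rw [norm_mul, Real.norm_eq_abs, Real.norm_eq_abs]
    have h1 : 1 + |y - x| ≤ 2 * (1 + |z - x|) := by
      have h2 : |y - x| ≤ |z - x| + |z - y| := by
        have := abs_sub_le y z x
        rw [abs_sub_comm y z] at this
        linarith
      have := abs_nonneg (z - x)
      linarith
    have hp1 : 0 < 1 + |y - x| := by positivity
    have hp2 : 0 < 1 + |z - x| := by positivity
    have h3 : (1 + |z - x|) ^ (-a) ≤ 2 ^ a * (1 + |y - x|) ^ (-a) := by
      have h4 := Real.rpow_le_rpow hp1.le h1 (show 0 ≤ a by linarith)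
      rw [Real.mul_rpow (by norm_num) hp2.le] at h4
      rw [Real.rpow_neg hp2.le, Real.rpow_neg hp1.le, ← div_eq_mul_inv, inv_eq_one_div,
        div_le_div_iff₀ (by positivity) (by positivity)]
      linarith
    calc |_root_.deriv f (z - x)| * |U x| ≤ C * (1 + |z - x|) ^ (-a) * M := by
          gcongr
          · exact hC _
          · exact hM x
      _ ≤ C * (2 ^ a * (1 + |y - x|) ^ (-a)) * M := by gcongr
      _ = _ := by ring
  · refine Eventually.of_forall fun x z _ => ?_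
    have h1 : HasDerivAt (fun z => f (z - x)) (_root_.deriv f (z - x)) z :=
      (hd (z - x)).hasDerivAt.comp_sub_const z x
    exact h1.mul_const (U x)

lemma phi_smooth_nat (ha : 1 < a) {U : ℝ → ℝ} (hU : Measurable U) {M : ℝ}
    (hM : ∀ x, |U x| ≤ M) (j : ℕ) :
    ∀ f : ℝ → ℝ, RC a f → ContDiff ℝ j (fun y => ∫ x, f (y - x) * U x) := by
  induction j with
  | zero =>
    intro f hf
    rw [Nat.cast_zero, contDiff_zero]
    exact continuous_iff_continuousAt.2 fun y => (phi_deriv ha hf hU hM y).continuousAt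
  | succ j ih =>
    intro f hf
    have hd : ∀ y, HasDerivAt (fun y => ∫ x, f (y - x) * U x) (∫ x, deriv f (y - x) * U x) y :=
      phi_deriv ha hf hU hM
    have hde : deriv (fun y => ∫ x, f (y - x) * U x) = fun y => ∫ x, deriv f (y - x) * U x :=
      funext fun y => (hd y).deriv
    rw [Nat.cast_add_one, contDiff_succ_iff_deriv]
    refine ⟨fun y => (hd y).differentiableAt, by simp, ?_⟩
    rw [hde]
    exact ih _ hf.deriv

/-- Smoothness of the far field. -/
theorem phi_smooth (ha : 1 < a) {U : ℝ → ℝ} (hU : Measurable U) {M : ℝ}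
    (hM : ∀ x, |U x| ≤ M) {f : ℝ → ℝ} (hf : RC a f) :
    ContDiff ℝ ∞ (fun y => ∫ x, f (y - x) * U x) :=
  contDiff_infty.2 fun j => phi_smooth_nat ha hU hM j f hf

end Pool.Agent.R217.NF
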