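import Pool.Agent.R217.NF.Step3

set_option autoImplicit false
set_option linter.unusedSectionVars false

open MeasureTheory Filter Topology Set
open scoped ContDiff FourierTransform

namespace Pool.Agent.R217.NF

open Pool.Agent.R217.FS (fl sd fubini wt wt_integrable)

variable {U : ℝ → ℝ} {M b s : ℝ}

lemma dd_zero : DD b U 0 := by
  intro η _
  refine ⟨∫ x, ‖PU U η x‖, integral_nonneg fun x => norm_nonneg _, fun k => ?_⟩
  rw [neg_zero, Real.rpow_zero, mul_one]
  exact VectorFourier.norm_fourierIntegral_le_integral_norm _ _ _ _ _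

/-- Smoothness of the localisations. -/
theorem local_smooth (hs : 0 < s) (hs1 : s < 1) {c : ℝ} (hc : 0 < c) (hU : Continuous U)
    (hM : ∀ x, |U x| ≤ M)
    (hE : ∀ φ, Wt b φ → 1 / (2 * s) * (∫ x, U x * deriv (fun y => y * φ y) x) +
      c * ∫ x, U x * fl s φ x = 0)
    {η : ℝ → ℝ} (hη : Wt b η) : ContDiff ℝ ∞ (fun x => U x * η x) := by
  have hUm : Measurable U := hU.measurable
  have hD : ∀ j : ℕ, DD b U (j * s) := by
    intro j
    induction j with
    | zero => simpa using dd_zero
    | succ j ih =>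
      have := step hs hs1 hc hUm hM hE (by positivity) ih
      have e : ((j + 1 : ℕ) : ℝ) * s = j * s + s := by push_cast; ring
      rw [e]; exact this
  have hDn : ∀ n : ℕ, ∃ C : ℝ, 0 ≤ C ∧ ∀ k, ‖𝓕 (PU U η) k‖ ≤ C * (1 + |k|) ^ (-(n:ℝ)) := by
    intro n
    obtain ⟨j, hj⟩ := exists_nat_ge ((n:ℝ) / s)
    obtain ⟨C, hC0, hC⟩ := hD j η hη
    refine ⟨C, hC0, fun k => (hC k).trans ?_⟩
    apply mul_le_mul_of_nonneg_left _ hC0
    apply Real.rpow_le_rpow_of_exponent_le
    · have := abs_nonneg k; linarith
    · rw [div_le_iff₀ hs] at hj; linarith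
  have hcont : Continuous (PU U η) := by
    unfold PU
    exact Complex.continuous_ofReal.comp (hU.mul hη.1.continuous)
  have hpi := pu_int hUm hM hη.1.continuous hη.2.1
  have hpx : Integrable (fun x : ℝ => x • PU U η x) := by
    have h1 : Integrable (fun x => ((U x * (x * η x) : ℝ) : ℂ)) :=
      (Wt.pint hUm hM (continuous_id.mul hη.1.continuous) (hη.2.1.mul_left)).ofReal
    refine h1.congr (Eventually.of_forall fun x => ?_)
    simp only [PU, Complex.real_smul]; push_cast; ring
  have hFc : Continuous (𝓕 (PU U η)) :=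
    continuous_iff_continuousAt.2 fun k => (Real.hasDerivAt_fourier hpi hpx k).continuousAt
  have hFi : ∀ n : ℕ, Integrable (fun k => ‖k‖ ^ n * ‖𝓕 (PU U η) k‖) := by
    intro n
    obtain ⟨C, hC0, hC⟩ := hDn (n + 2)
    have hi : Integrable (fun x : ℝ => C * (1 + ‖x‖) ^ (-(2:ℝ))) :=
      (integrable_one_add_norm (by simp)).const_mul C
    refine hi.mono' ((continuous_norm.pow n).mul hFc.norm).aestronglyMeasurable
      (Eventually.of_forall fun k => ?_)
    have hp : 0 < 1 + |k| := by positivity
    rw [Real.norm_eq_abs, abs_of_nonneg (by positivity), Real.norm_eq_abs]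
    calc |k| ^ n * ‖𝓕 (PU U η) k‖ ≤ (1 + |k|) ^ n * (C * (1 + |k|) ^ (-((n + 2 : ℕ) : ℝ))) := by
          gcongr
          · linarith
          · exact hC k
      _ = C * (1 + |k|) ^ (-(2:ℝ)) := by
          rw [← Real.rpow_natCast, mul_left_comm, ← Real.rpow_add hp]
          congr 2; push_cast; ring
  have hF1 : Integrable (𝓕 (PU U η)) := by
    have := hFi 0
    simp only [pow_zero, one_mul] at this
    exact (integrable_norm_iff hFc.aestronglyMeasurable).1 this
  have hinv := Continuous.fourierInv_fourier_eq hcont hpi hF1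
  have hsm : ContDiff ℝ ∞ (𝓕 (𝓕 (PU U η))) := by
    have := Real.contDiff_fourier (N := ⊤) (f := 𝓕 (PU U η)) (fun n _ => hFi n)
    exact this
  have hsm2 : ContDiff ℝ ∞ (PU U η) := by
    have e : PU U η = fun x => 𝓕 (𝓕 (PU U η)) (-x) := by
      funext x
      rw [← Real.fourierInv_eq_fourier_neg, hinv]
    rw [e]
    exact hsm.comp contDiff_neg
  have e : (fun x => U x * η x) = fun x => Complex.reCLM (PU U η x) := by
    funext x; simp [PU]
  rw [e]
  exact Complex.reCLM.contDiff.comp hsm2

/-- The self-similar profile `H` of the one-phase fractional Stefan problem with latent heat `L`,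
free boundary point `ξ0`, and normalising constant `c` of the fractional Laplacian. -/
structure Profile (s c L P1 P2 ξ0 : ℝ) (H : ℝ → ℝ) : Prop where
  cont : Continuous H
  anti : Antitone H
  ge : ∀ x, L - P2 ≤ H x
  le : ∀ x, H x ≤ L + P1
  pos : 0 < ξ0
  val : H ξ0 = L
  uniq : ∀ x, H x = L → x = ξ0
  eqn : ∀ φ : ℝ → ℝ, ContDiff ℝ ∞ φ → HasCompactSupport φ →
    1 / (2 * s) * (∫ x, H x * deriv (fun y => y * φ y) x) +
      c * (∫ x, max (H x - L) 0 * fl s φ x) = 0

/-- Interior regularity in the water region. -/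
theorem main (s c L P1 P2 ξ0 : ℝ) (hs : 0 < s) (hs1 : s < 1) (hc : 0 < c) {H : ℝ → ℝ}
    (h : Profile s c L P1 P2 ξ0 H) : ContDiffOn ℝ ∞ H (Iio ξ0) := by
  obtain ⟨U, hU⟩ : ∃ U : ℝ → ℝ, U = fun x => max (H x - L) 0 := ⟨_, rfl⟩
  have hUc : Continuous U := by rw [hU]; exact (h.cont.sub continuous_const).max continuous_const
  have hP1 : ∀ x, |U x| ≤ |P1| := by
    intro x
    rw [hU]
    simp only
    rw [abs_of_nonneg (le_max_right _ _)]
    apply max_le
    · have := h.le x
      have := le_abs_self P1
      linarith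
    · exact abs_nonneg _
  have hUH : ∀ x, x < ξ0 → H x = U x + L := by
    intro x hx
    have h1 : L ≤ H x := by rw [← h.val]; exact h.anti hx.le
    rw [hU]
    simp only
    rw [max_eq_left (by linarith)]; ring
  have hE : ∀ φ, Wt ξ0 φ → 1 / (2 * s) * (∫ x, U x * deriv (fun y => y * φ y) x) +
      c * ∫ x, U x * fl s φ x = 0 := by
    intro φ hφ
    have h1 := h.eqn φ hφ.1 hφ.2.1
    have h2 : ContDiff ℝ ∞ (fun y => y * φ y) := contDiff_id.mul hφ.1
    have h3 : HasCompactSupport (fun y => y * φ y) := hφ.2.1.mul_left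
    have hdc : Continuous (deriv (fun y => y * φ y)) := h2.continuous_deriv (by simp)
    have hz : ∫ x, deriv (fun y => y * φ y) x = 0 :=
      integral_eq_zero_of_hasDerivAt_of_integrable
        (fun x => (h2.differentiable (by simp) x).hasDerivAt)
        (hdc.integrable_of_hasCompactSupport h3.deriv)
        (h2.continuous.integrable_of_hasCompactSupport h3)
    have e : ∫ x, H x * deriv (fun y => y * φ y) x = ∫ x, U x * deriv (fun y => y * φ y) x := by
      have e1 : ∀ x, H x * deriv (fun y => y * φ y) x =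
          U x * deriv (fun y => y * φ y) x + L * deriv (fun y => y * φ y) x := by
        intro x
        by_cases hx : x < ξ0
        · rw [hUH x hx]; ring
        · have hx0 : deriv (fun y => y * φ y) x = 0 := by
            by_contra hne
            have h4 : x ∈ tsupport (fun y => y * φ y) := support_deriv_subset hne
            have h5 : x ∈ tsupport φ :=
              (tsupport_mul_subset_right (f := fun y : ℝ => y) (g := φ)) h4
            exact hx (hφ.2.2 h5)
          rw [hx0]; ring
      simp_rw [e1]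
      rw [integral_add (Wt.pint hUc.measurable hP1 hdc h3.deriv)
        ((hdc.integrable_of_hasCompactSupport h3.deriv).const_mul L), integral_const_mul, hz]
      ring
    rw [e] at h1
    rw [hU] at h1 ⊢
    exact h1
  intro x hx
  have hx' : x < ξ0 := hx
  -- a cutoff
  let B : ContDiffBump x := ⟨(ξ0 - x) / 4, (ξ0 - x) / 2, by linarith, by linarith⟩
  have hB : Wt ξ0 B := by
    refine ⟨B.contDiff, B.hasCompactSupport, ?_⟩
    rw [B.tsupport_eq]
    intro y hy
    rw [Metric.mem_closedBall, Real.dist_eq] at hy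
    have h1 : y - x ≤ (ξ0 - x) / 2 := (le_abs_self _).trans hy
    rw [mem_Iio]; linarith
  have hsm := local_smooth hs hs1 hc hUc hP1 hE hB
  have hev : H =ᶠ[𝓝 x] fun y => U y * B y + L := by
    have h1 : Metric.ball x ((ξ0 - x) / 4) ∈ 𝓝 x := Metric.ball_mem_nhds _ (by linarith)
    filter_upwards [h1, Iio_mem_nhds hx'] with y hy hy2
    rw [B.one_of_mem_closedBall (Metric.ball_subset_closedBall hy), mul_one]
    exact hUH y hy2
  exact ((hsm.add contDiff_const).contDiffAt.congr_of_eventuallyEq hev).contDiffWithinAt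

end Pool.Agent.R217.NF
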