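import Mathlib

set_option autoImplicit false
set_option linter.unusedSectionVars false

open MeasureTheory Filter Topology Set
open scoped ContDiff FourierTransform

namespace Pool.Agent.R217.NF

/-- Complex test functions. -/
def CT (f : ℝ → ℂ) : Prop := ContDiff ℝ ∞ f ∧ HasCompactSupport f

/-- The exponential. -/
noncomputable def ee (k x : ℝ) : ℂ := Complex.exp (((-2 * Real.pi * x * k : ℝ) : ℂ) * Complex.I)

lemma ee_norm (k x : ℝ) : ‖ee k x‖ = 1 := Complex.norm_exp_ofReal_mul_I _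

lemma ee_cont (k : ℝ) : Continuous (ee k) := by unfold ee; fun_prop

lemma ft_eq (f : ℝ → ℂ) (k : ℝ) : 𝓕 f k = ∫ x, ee k x * f x := by
  rw [Real.fourier_real_eq_integral_exp_smul]
  rfl

lemma ee_add (k l x : ℝ) : ee (k + l) x = ee k x * ee l x := by
  unfold ee
  rw [← Complex.exp_add]; congr 1; push_cast; ring

lemma ee_addx (k x h : ℝ) : ee k (x + h) = ee k x * ee k h := by
  unfold ee
  rw [← Complex.exp_add]; congr 1; push_cast; ring

lemma ee_zero (x : ℝ) : ee 0 x = 1 := by unfold ee; simp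

lemma ee_comm (k x : ℝ) : ee k x = ee x k := by
  unfold ee; congr 2; push_cast; ring

lemma CT.int {f : ℝ → ℂ} (h : CT f) : Integrable f :=
  h.1.continuous.integrable_of_hasCompactSupport h.2

/-- Rapid decay. -/
lemma CT.decay {f : ℝ → ℂ} (h : CT f) (m : ℕ) :
    ∃ C : ℝ, 0 ≤ C ∧ ∀ k, ‖𝓕 f k‖ ≤ C * (1 + |k|) ^ (-(m:ℝ)) := by
  let F : SchwartzMap ℝ ℂ := h.2.toSchwartzMap h.1
  obtain ⟨C, hC⟩ : ∃ C, C = 2 ^ m * (Finset.Iic ((m, 0) : ℕ × ℕ)).sup
    (fun m => SchwartzMap.seminorm ℝ m.1 m.2) (𝓕 F) := ⟨_, rfl⟩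
  refine ⟨C, by rw [hC]; positivity, fun k => ?_⟩
  have h1 := SchwartzMap.one_add_le_sup_seminorm_apply (𝕜 := ℝ) (m := (m, 0)) (k := m) (n := 0)
    le_rfl le_rfl (𝓕 F) k
  rw [norm_iteratedFDeriv_zero] at h1
  have h2 : (𝓕 F) k = 𝓕 f k := rfl
  rw [h2, ← hC, Real.norm_eq_abs] at h1
  have hp : 0 < 1 + |k| := by positivity
  rw [Real.rpow_neg hp.le, Real.rpow_natCast, ← div_eq_mul_inv, le_div_iff₀ (by positivity)]
  linarith

lemma CT.decayr {f : ℝ → ℂ} (h : CT f) (m : ℝ) :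
    ∃ C : ℝ, 0 ≤ C ∧ ∀ k, ‖𝓕 f k‖ ≤ C * (1 + |k|) ^ (-m) := by
  obtain ⟨N, hN⟩ := exists_nat_ge m
  obtain ⟨C, hC0, hC⟩ := h.decay N
  refine ⟨C, hC0, fun k => (hC k).trans ?_⟩
  apply mul_le_mul_of_nonneg_left _ hC0
  apply Real.rpow_le_rpow_of_exponent_le
  · have := abs_nonneg k; linarith
  · linarith

/-- The weighted integral of the transform is finite. -/
lemma CT.wint {f : ℝ → ℂ} (h : CT f) (m : ℝ) :
    Integrable (fun l => ‖𝓕 f l‖ * (1 + |l|) ^ m) := by
  obtain ⟨C, hC0, hC⟩ := h.decayr (m + 2)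
  have hc : Continuous (𝓕 f) := by
    let F : SchwartzMap ℝ ℂ := h.2.toSchwartzMap h.1
    have : Continuous ((𝓕 F : SchwartzMap ℝ ℂ) : ℝ → ℂ) := (𝓕 F).continuous
    exact this
  have hi : Integrable (fun x : ℝ => C * (1 + ‖x‖) ^ (-(2:ℝ))) :=
    (integrable_one_add_norm (by simp)).const_mul C
  refine hi.mono' ?_ (Eventually.of_forall fun l => ?_)
  · apply Continuous.aestronglyMeasurable
    apply hc.norm.mul
    apply Continuous.rpow_const (by fun_prop)
    intro x; left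
    have := abs_nonneg x
    positivity
  · have hp : 0 < 1 + |l| := by positivity
    rw [Real.norm_eq_abs, abs_of_nonneg (by positivity), Real.norm_eq_abs]
    calc ‖𝓕 f l‖ * (1 + |l|) ^ m ≤ C * (1 + |l|) ^ (-(m + 2)) * (1 + |l|) ^ m := by
          gcongr; exact hC l
      _ = C * (1 + |l|) ^ (-(2:ℝ)) := by
          rw [mul_assoc, ← Real.rpow_add hp]; congr 2; ring

/-- The transform of a product. -/
lemma ft_mul {f g : ℝ → ℂ} (hf : CT f) (hg : Integrable g) (k : ℝ) :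
    𝓕 (fun x => f x * g x) k = ∫ l, 𝓕 f l * 𝓕 g (k - l) := by
  have hFi : Integrable (𝓕 f) := by
    let F : SchwartzMap ℝ ℂ := hf.2.toSchwartzMap hf.1
    have : Integrable ((𝓕 F : SchwartzMap ℝ ℂ) : ℝ → ℂ) := (𝓕 F).integrable
    exact this
  have hinv : ∀ x, f x = ∫ l, ee (-l) x * 𝓕 f l := by
    intro x
    have h1 := Continuous.fourierInv_fourier_eq hf.1.continuous hf.int hFi
    have h2 : 𝓕⁻ (𝓕 f) x = f x := by rw [h1]
    rw [← h2, Real.fourierInv_eq_fourier_neg, ft_eq]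
    congr 1; funext l
    congr 1
    unfold ee; congr 2; push_cast; ring
  rw [ft_eq]
  have e1 : ∀ x, ee k x * (f x * g x) = ∫ l, ee (k - l) x * 𝓕 f l * g x := by
    intro x
    rw [hinv x, ← integral_mul_const, ← integral_const_mul]
    congr 1; funext l
    rw [sub_eq_add_neg, ee_add]; ring
  simp_rw [e1]
  have hprod : Integrable (fun p : ℝ × ℝ => ee (k - p.2) p.1 * 𝓕 f p.2 * g p.1)
      ((volume : Measure ℝ).prod volume) := by
    have h3 : Integrable (fun p : ℝ × ℝ => g p.1 * 𝓕 f p.2) ((volume : Measure ℝ).prod volume) :=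
      hg.mul_prod hFi
    refine h3.norm.mono' ?_ (Eventually.of_forall fun p => ?_)
    · have hc : Continuous (fun p : ℝ × ℝ => ee (k - p.2) p.1) := by unfold ee; fun_prop
      have h4 := hc.aestronglyMeasurable.mul h3.1 (μ := (volume : Measure ℝ).prod volume)
      refine h4.congr (Eventually.of_forall fun p => ?_)
      simp only [Pi.mul_apply]; ring
    · rw [norm_mul, norm_mul, ee_norm, one_mul, norm_mul, mul_comm]
  rw [integral_integral_swap (f := fun x l => ee (k - l) x * 𝓕 f l * g x) hprod]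
  congr 1; funext l
  rw [ft_eq g, ← integral_const_mul]
  congr 1; funext x
  ring

/-- Peetre's inequality. -/
lemma peetre {m : ℝ} (hm : 0 ≤ m) (k l : ℝ) :
    (1 + |k - l|) ^ (-m) ≤ (1 + |l|) ^ m * (1 + |k|) ^ (-m) := by
  have h1 : 0 < 1 + |k - l| := by positivity
  have h2 : 0 < 1 + |l| := by positivity
  have h3 : 0 < 1 + |k| := by positivity
  have h4 : 1 + |k| ≤ (1 + |l|) * (1 + |k - l|) := by
    have : |k| ≤ |l| + |k - l| := by
      have := abs_add_le l (k - l)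
      rwa [add_sub_cancel] at this
    nlinarith [abs_nonneg l, abs_nonneg (k - l)]
  have h5 := Real.rpow_le_rpow h3.le h4 hm
  rw [Real.mul_rpow h2.le h1.le] at h5
  rw [Real.rpow_neg h1.le, Real.rpow_neg h3.le, ← div_eq_mul_inv, inv_eq_one_div,
    div_le_div_iff₀ (by positivity) (by positivity)]
  linarith

/-- Multiplication by a test function. -/
lemma mul_bound {f g : ℝ → ℂ} (hf : CT f) (hg : Integrable g) {m C : ℝ} (hm : 0 ≤ m)
    (hC : ∀ k, ‖𝓕 g k‖ ≤ C * (1 + |k|) ^ (-m)) (k : ℝ) :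
    ‖𝓕 (fun x => f x * g x) k‖ ≤ C * (∫ l, ‖𝓕 f l‖ * (1 + |l|) ^ m) * (1 + |k|) ^ (-m) := by
  have hC0 : 0 ≤ C := by
    have := (norm_nonneg _).trans (hC 0)
    simpa using this
  rw [ft_mul hf hg]
  have e : C * (∫ l, ‖𝓕 f l‖ * (1 + |l|) ^ m) * (1 + |k|) ^ (-m) =
      ∫ l, C * (1 + |k|) ^ (-m) * (‖𝓕 f l‖ * (1 + |l|) ^ m) := by
    rw [integral_const_mul]; ring
  rw [e]
  apply norm_integral_le_of_norm_le ((hf.wint m).const_mul _)
  refine Eventually.of_forall fun l => ?_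
  rw [norm_mul]
  calc ‖𝓕 f l‖ * ‖𝓕 g (k - l)‖ ≤ ‖𝓕 f l‖ * (C * ((1 + |l|) ^ m * (1 + |k|) ^ (-m))) := by
        gcongr
        exact (hC _).trans (mul_le_mul_of_nonneg_left (peetre hm k l) hC0)
    _ = C * (1 + |k|) ^ (-m) * (‖𝓕 f l‖ * (1 + |l|) ^ m) := by ring

/-- Translations. -/
lemma ft_shift {f : ℝ → ℂ} (h k : ℝ) : 𝓕 (fun x => f (x + h)) k = ee k (-h) * 𝓕 f k := by
  rw [ft_eq, ft_eq, ← integral_const_mul,
    ← integral_add_right_eq_self (fun x => ee k (-h) * (ee k x * f x)) h]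
  congr 1; funext x
  rw [ee_addx, ← mul_assoc, ← mul_assoc, mul_comm (ee k (-h)), mul_assoc (ee k x), ← ee_addx]
  have : ee k (-h + h) = 1 := by rw [neg_add_cancel, ee_comm, ee_zero]
  rw [this, mul_one]

lemma CT.shift {f : ℝ → ℂ} (hf : CT f) (h : ℝ) : CT (fun x => f (x + h)) :=
  ⟨hf.1.comp (contDiff_id.add contDiff_const), hf.2.comp_homeomorph (Homeomorph.addRight h)⟩

/-- First differences. -/
lemma diff1 {f : ℝ → ℂ} (hf : CT f) (h k : ℝ) :
    ‖𝓕 (fun x => f (x + h) - f (x - h)) k‖ ≤ 4 * Real.pi * |h| * (|k| * ‖𝓕 f k‖) := by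
  have e : 𝓕 (fun x => f (x + h) - f (x - h)) k = (ee k (-h) - ee k h) * 𝓕 f k := by
    have h1 : 𝓕 (fun x => f (x + h) - f (x - h)) k =
        𝓕 (fun x => f (x + h)) k - 𝓕 (fun x => f (x + -h)) k := by
      rw [ft_eq, ft_eq, ft_eq, ← integral_sub]
      · congr 1; funext x; rw [← sub_eq_add_neg]; ring
      · exact ((hf.shift h).int.bdd_mul (ee_cont k).aestronglyMeasurable (c := 1)
          (Eventually.of_forall fun x => (ee_norm k x).le))
      · exact ((hf.shift (-h)).int.bdd_mul (ee_cont k).aestronglyMeasurable (c := 1)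
          (Eventually.of_forall fun x => (ee_norm k x).le))
    rw [h1, ft_shift, ft_shift, neg_neg]; ring
  rw [e, norm_mul]
  have h2 : ‖ee k (-h) - ee k h‖ ≤ 4 * Real.pi * |h| * |k| := by
    have e2 : ee k (-h) - ee k h = ((2 * Real.sin (2 * Real.pi * h * k) : ℝ) : ℂ) * Complex.I := by
      unfold ee
      rw [show ((-2 * Real.pi * -h * k : ℝ) : ℂ) = ((2 * Real.pi * h * k : ℝ) : ℂ) by
        push_cast; ring, show ((-2 * Real.pi * h * k : ℝ) : ℂ) = -((2 * Real.pi * h * k : ℝ) : ℂ) by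
        push_cast; ring, Complex.exp_mul_I, Complex.exp_mul_I, Complex.cos_neg, Complex.sin_neg,
        ← Complex.ofReal_sin]
      push_cast; ring
    rw [e2, norm_mul, Complex.norm_I, mul_one, Complex.norm_real, Real.norm_eq_abs, abs_mul,
      abs_two]
    have h3 := Real.abs_sin_le_one
    have h4 : |Real.sin (2 * Real.pi * h * k)| ≤ |2 * Real.pi * h * k| := Real.abs_sin_le_abs
    rw [abs_mul, abs_mul, abs_mul, abs_two, abs_of_pos Real.pi_pos] at h4
    linarith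
  calc ‖ee k (-h) - ee k h‖ * ‖𝓕 f k‖ ≤ 4 * Real.pi * |h| * |k| * ‖𝓕 f k‖ := by gcongr
    _ = _ := by ring

/-- Second differences. -/
lemma diff2 {f : ℝ → ℂ} (hf : CT f) (h k : ℝ) :
    ‖𝓕 (fun x => 2 * f x - f (x + h) - f (x - h)) k‖ ≤
      4 * Real.pi ^ 2 * h ^ 2 * (|k| ^ 2 * ‖𝓕 f k‖) := by
  have e : 𝓕 (fun x => 2 * f x - f (x + h) - f (x - h)) k =
      (2 - ee k (-h) - ee k h) * 𝓕 f k := by
    have h1 : 𝓕 (fun x => 2 * f x - f (x + h) - f (x - h)) k =
        2 * 𝓕 f k - 𝓕 (fun x => f (x + h)) k - 𝓕 (fun x => f (x + -h)) k := by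
      have i0 := (hf.int.bdd_mul (ee_cont k).aestronglyMeasurable (c := 1)
          (Eventually.of_forall fun x => (ee_norm k x).le)).const_mul 2
      have i1 := ((hf.shift h).int.bdd_mul (ee_cont k).aestronglyMeasurable (c := 1)
          (Eventually.of_forall fun x => (ee_norm k x).le))
      have i2 := ((hf.shift (-h)).int.bdd_mul (ee_cont k).aestronglyMeasurable (c := 1)
          (Eventually.of_forall fun x => (ee_norm k x).le))
      have i01 : Integrable (fun x => 2 * (ee k x * f x) - ee k x * f (x + h)) := i0.sub i1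
      rw [ft_eq, ft_eq, ft_eq, ft_eq, ← integral_const_mul, ← integral_sub i0 i1,
        ← integral_sub i01 i2]
      congr 1; funext x; rw [← sub_eq_add_neg]; ring
    rw [h1, ft_shift, ft_shift, neg_neg]; ring
  rw [e, norm_mul]
  have h2 : ‖2 - ee k (-h) - ee k h‖ ≤ 4 * Real.pi ^ 2 * h ^ 2 * |k| ^ 2 := by
    have e2 : 2 - ee k (-h) - ee k h = ((2 - 2 * Real.cos (2 * Real.pi * h * k) : ℝ) : ℂ) := by
      unfold ee
      rw [show ((-2 * Real.pi * -h * k : ℝ) : ℂ) = ((2 * Real.pi * h * k : ℝ) : ℂ) by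
        push_cast; ring, show ((-2 * Real.pi * h * k : ℝ) : ℂ) = -((2 * Real.pi * h * k : ℝ) : ℂ) by
        push_cast; ring, Complex.exp_mul_I, Complex.exp_mul_I, Complex.cos_neg, Complex.sin_neg,
        ← Complex.ofReal_cos]
      push_cast; ring
    rw [e2, Complex.norm_real, Real.norm_eq_abs]
    have h3 := Real.one_sub_sq_div_two_le_cos (x := 2 * Real.pi * h * k)
    have h4 := Real.cos_le_one (2 * Real.pi * h * k)
    rw [abs_of_nonneg (by linarith), sq_abs]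
    nlinarith
  calc ‖2 - ee k (-h) - ee k h‖ * ‖𝓕 f k‖ ≤ 4 * Real.pi ^ 2 * h ^ 2 * |k| ^ 2 * ‖𝓕 f k‖ := by
        gcongr
    _ = _ := by ring

end Pool.Agent.R217.NF
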