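import Pool.Agent.R217.NF.Fin

set_option autoImplicit false
set_option linter.unusedSectionVars false

open MeasureTheory Filter Topology Set
open scoped ContDiff

namespace Pool.Agent.R217.NF

/-- Interior smoothness gives all local Hölder classes. -/
theorem holder_of_smooth {H : ℝ → ℝ} {b : ℝ} (hH : ContDiffOn ℝ ∞ H (Iio b)) (k : ℕ) {γ p q : ℝ}
    (_hγ : 0 < γ) (hγ1 : γ ≤ 1) (hpq : p < q) (hq : q < b) :
    ∃ C : ℝ, ∀ x ∈ Icc p q, ∀ y ∈ Icc p q,
      |iteratedDeriv k H x - iteratedDeriv k H y| ≤ C * |x - y| ^ γ := by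
  obtain ⟨δ, hδ⟩ : ∃ δ, δ = (b - q) / 4 := ⟨_, rfl⟩
  have hδ0 : 0 < δ := by rw [hδ]; linarith
  let B : ContDiffBump ((p + q) / 2) := ⟨(q - p) / 2 + δ, (q - p) / 2 + 2 * δ, by
    have : 0 < (q - p) / 2 := by linarith
    linarith, by linarith⟩
  obtain ⟨f, hf⟩ : ∃ f : ℝ → ℝ, f = fun x => B x * H x := ⟨_, rfl⟩
  have hfs : ContDiff ℝ ∞ f := by
    rw [contDiff_iff_contDiffAt]
    intro x
    by_cases hx : x < b
    · rw [hf]
      exact B.contDiff.contDiffAt.mul (hH.contDiffAt (Iio_mem_nhds hx))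
    · have hev : f =ᶠ[𝓝 x] fun _ => 0 := by
        have : Ioi (b - δ) ∈ 𝓝 x := Ioi_mem_nhds (by linarith [not_lt.1 hx])
        filter_upwards [this] with y hy
        have hy1 : b - δ < y := hy
        rw [hf]
        simp only
        rw [B.zero_of_le_dist, zero_mul]
        rw [Real.dist_eq]
        refine le_trans ?_ (le_abs_self _)
        have hr : B.rOut = (q - p) / 2 + 2 * δ := rfl
        rw [hr]
        linarith
      exact contDiffAt_const.congr_of_eventuallyEq hev
  have hfH : ∀ x ∈ Icc p q, iteratedDeriv k H x = iteratedDeriv k f x := by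
    intro x hx
    have hev : H =ᶠ[𝓝 x] f := by
      have : Ioo (p - δ) (q + δ) ∈ 𝓝 x := Ioo_mem_nhds (by linarith [hx.1]) (by linarith [hx.2])
      filter_upwards [this] with y hy
      rw [hf]
      simp only
      rw [B.one_of_mem_closedBall, one_mul]
      rw [Metric.mem_closedBall, Real.dist_eq, abs_le]
      have hr : B.rIn = (q - p) / 2 + δ := rfl
      rw [hr]
      constructor <;> linarith [hy.1, hy.2]
    exact hev.iteratedDeriv_eq k
  have hd : Differentiable ℝ (iteratedDeriv k f) :=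
    hfs.differentiable_iteratedDeriv k (by exact_mod_cast ENat.natCast_lt_top k)
  have hc : Continuous (iteratedDeriv (k + 1) f) :=
    hfs.continuous_iteratedDeriv (k + 1) (by exact_mod_cast le_top)
  obtain ⟨C, hC⟩ := (isCompact_Icc (a := p) (b := q)).exists_bound_of_continuousOn hc.continuousOn
  have hC0 : 0 ≤ C := (norm_nonneg _).trans (hC p (left_mem_Icc.2 hpq.le))
  refine ⟨C * (q - p) ^ (1 - γ), fun x hx y hy => ?_⟩
  rw [hfH x hx, hfH y hy]
  have h1 := Convex.norm_image_sub_le_of_norm_deriv_le (f := iteratedDeriv k f) (s := Icc p q)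
    (fun w _ => hd w) (fun w hw => by
      rw [← iteratedDeriv_succ]; exact hC w hw) (convex_Icc p q) hy hx
  rw [Real.norm_eq_abs, Real.norm_eq_abs] at h1
  refine h1.trans ?_
  rw [mul_assoc]
  apply mul_le_mul_of_nonneg_left _ hC0
  rcases eq_or_ne x y with hxy | hxy
  · rw [hxy, sub_self, abs_zero]
    exact mul_nonneg (Real.rpow_nonneg (by linarith) _) (Real.rpow_nonneg le_rfl _)
  · have hpos : 0 < |x - y| := abs_pos.2 (sub_ne_zero.2 hxy)
    have hle : |x - y| ≤ q - p := by
      rw [abs_le]; constructor <;> linarith [hx.1, hx.2, hy.1, hy.2]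
    calc |x - y| = |x - y| ^ (1 - γ) * |x - y| ^ γ := by
          rw [← Real.rpow_add hpos, sub_add_cancel, Real.rpow_one]
      _ ≤ (q - p) ^ (1 - γ) * |x - y| ^ γ := by
          gcongr

end Pool.Agent.R217.NF
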