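import Mathlib

set_option autoImplicit false
set_option linter.unusedSectionVars false

open MeasureTheory Filter Topology Set

namespace Pool.Agent.R217.NF

/-- Decay from the differential inequality. -/
lemma ode_decay {g g' : ℝ → ℂ} {a s m B C : ℝ} (ha : 0 < a) (hs : 0 < s) (hs1 : s < 1)
    (hm : 0 ≤ m) (hB : ∀ k, ‖g k‖ ≤ B) (hd : ∀ k, 0 < k → HasDerivAt g (g' k) k) (hC : 0 ≤ C)
    (h : ∀ k, 0 < k → ‖g k + k * g' k + ((2 * s * a * k ^ (2 * s) : ℝ) : ℂ) * g k‖ ≤
      C * (1 + k) ^ (s - m)) :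
    ∃ K : ℝ, 0 ≤ K ∧ ∀ k, 0 ≤ k → ‖g k‖ ≤ K * (1 + k) ^ (-(m + s)) := by
  have hB0 : 0 ≤ B := (norm_nonneg _).trans (hB 0)
  obtain ⟨β, hβ⟩ : ∃ β, β = 1 - s - m := ⟨_, rfl⟩
  -- the starting point
  obtain ⟨k0, hk01, hk0⟩ : ∃ k0 : ℝ, 1 ≤ k0 ∧ ∀ k, k0 ≤ k → |β| * k ^ (-(2 * s)) ≤ s * a := by
    have h1 : Tendsto (fun k : ℝ => |β| * k ^ (-(2 * s))) atTop (𝓝 0) := by
      simpa using (tendsto_rpow_neg_atTop (show 0 < 2 * s by positivity)).const_mul |β|
    obtain ⟨K, hK⟩ := eventually_atTop.1 (h1.eventually (gt_mem_nhds (show 0 < s * a by positivity)))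
    exact ⟨max K 1, le_max_right _ _, fun k hk => (hK k ((le_max_left _ _).trans hk)).le⟩
  have hk0p : 0 < k0 := by linarith
  obtain ⟨K, hK⟩ : ∃ K, K = max (2 * C / (s * a)) (B * k0 ^ (1 - β)) := ⟨_, rfl⟩
  have hK1 : 2 * C ≤ K * (s * a) := by
    rw [← div_le_iff₀ (by positivity), hK]; exact le_max_left _ _
  have hK2 : B * k0 ^ (1 - β) ≤ K := by rw [hK]; exact le_max_right _ _
  have hK0 : 0 ≤ K := (by positivity : 0 ≤ B * k0 ^ (1 - β)).trans hK2
  -- the comparison
  obtain ⟨X, hX⟩ : ∃ X : ℝ → ℝ, X = fun k => Real.exp (a * k ^ (2 * s)) := ⟨_, rfl⟩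
  have hXp : ∀ k, 0 < X k := fun k => by rw [hX]; exact Real.exp_pos _
  have hXd : ∀ k, 0 < k → HasDerivAt X (X k * (a * (2 * s * k ^ (2 * s - 1)))) k := by
    intro k hk
    have h1 : HasDerivAt (fun k : ℝ => a * k ^ (2 * s)) (a * (2 * s * k ^ (2 * s - 1))) k :=
      ((Real.hasDerivAt_rpow_const (Or.inl hk.ne')).const_mul a)
    rw [hX]
    exact h1.exp
  have hcmp : ∀ k, k0 ≤ k → ‖((X k * k : ℝ) : ℂ) * g k‖ ≤ K * (X k * k ^ β) := by
    intro k hk
    have hpos : ∀ x ∈ Icc k0 k, 0 < x := fun x hx => hk0p.trans_le hx.1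
    have hZ : ∀ x, 0 < x → HasDerivAt (fun x : ℝ => ((X x * x : ℝ) : ℂ) * g x)
        ((X x : ℂ) * (g x + x * g' x + ((2 * s * a * x ^ (2 * s) : ℝ) : ℂ) * g x)) x := by
      intro x hx
      have h1 : HasDerivAt (fun x : ℝ => X x * x)
          (X x * (a * (2 * s * x ^ (2 * s - 1))) * x + X x * 1) x :=
        (hXd x hx).mul (hasDerivAt_id x)
      have h2 := h1.ofReal_comp
      have h3 := h2.mul (hd x hx)
      refine h3.congr_deriv ?_
      have e : x ^ (2 * s - 1) * x = x ^ (2 * s) := by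
        nth_rewrite 2 [← Real.rpow_one x]
        rw [← Real.rpow_add hx]; congr 1; ring
      have e2 : X x * (a * (2 * s * x ^ (2 * s - 1))) * x + X x * 1 =
          X x * (2 * s * a * x ^ (2 * s)) + X x := by
        rw [← e]; ring
      rw [e2]; push_cast; ring
    have hBd : ∀ x, 0 < x → HasDerivAt (fun x : ℝ => K * (X x * x ^ β))
        (K * (X x * (a * (2 * s * x ^ (2 * s - 1))) * x ^ β + X x * (β * x ^ (β - 1)))) x := by
      intro x hx
      exact ((hXd x hx).mul (Real.hasDerivAt_rpow_const (Or.inl hx.ne'))).const_mul K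
    refine image_norm_le_of_norm_deriv_right_le_deriv_boundary'
      (f := fun x : ℝ => ((X x * x : ℝ) : ℂ) * g x)
      (B := fun x : ℝ => K * (X x * x ^ β))
      (fun x hx => (hZ x (hpos x hx)).continuousAt.continuousWithinAt)
      (fun x hx => (hZ x (hpos x ⟨hx.1, hx.2.le⟩)).hasDerivWithinAt) ?_
      (fun x hx => (hBd x (hpos x hx)).continuousAt.continuousWithinAt)
      (fun x hx => (hBd x (hpos x ⟨hx.1, hx.2.le⟩)).hasDerivWithinAt) ?_
      (right_mem_Icc.2 hk)
    · rw [norm_mul, Complex.norm_real, Real.norm_eq_abs, abs_of_pos (mul_pos (hXp _) hk0p)]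
      have h1 : B * k0 ≤ K * k0 ^ β := by
        have h2 : B * k0 ^ (1 - β) * k0 ^ β = B * k0 := by
          rw [mul_assoc, ← Real.rpow_add hk0p, sub_add_cancel, Real.rpow_one]
        rw [← h2]
        gcongr
      calc X k0 * k0 * ‖g k0‖ ≤ X k0 * k0 * B := by
            have := hXp k0
            gcongr; exact hB k0
        _ = X k0 * (B * k0) := by ring
        _ ≤ X k0 * (K * k0 ^ β) := mul_le_mul_of_nonneg_left h1 (hXp _).le
        _ = K * (X k0 * k0 ^ β) := by ring
    · intro x hx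
      have hx0 : 0 < x := hpos x ⟨hx.1, hx.2.le⟩
      have hx1 : 1 ≤ x := hk01.trans hx.1
      rw [norm_mul, Complex.norm_real, Real.norm_eq_abs, abs_of_pos (hXp x)]
      have h1 : (1 + x) ^ (s - m) ≤ 2 * x ^ (s - m) := by
        rcases le_total 0 (s - m) with h2 | h2
        · calc (1 + x) ^ (s - m) ≤ (2 * x) ^ (s - m) :=
              Real.rpow_le_rpow (by positivity) (by linarith) h2
            _ = 2 ^ (s - m) * x ^ (s - m) := Real.mul_rpow (by norm_num) hx0.le
            _ ≤ 2 * x ^ (s - m) := by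
              apply mul_le_mul_of_nonneg_right _ (by positivity)
              calc (2:ℝ) ^ (s - m) ≤ 2 ^ (1:ℝ) :=
                    Real.rpow_le_rpow_of_exponent_le (by norm_num) (by linarith)
                _ = 2 := Real.rpow_one 2
        · have h3 := Real.rpow_le_rpow_of_nonpos hx0 (show x ≤ 1 + x by linarith) h2
          have h4 : 0 ≤ x ^ (s - m) := by positivity
          linarith
      have e1 : x ^ (2 * s - 1) * x ^ β = x ^ (s - m) := by
        rw [← Real.rpow_add hx0]; congr 1; rw [hβ]; ring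
      have e2 : x ^ (β - 1) = x ^ (-(2 * s)) * x ^ (s - m) := by
        rw [← Real.rpow_add hx0]; congr 1; rw [hβ]; ring
      have h5 := hk0 x hx.1
      have h6 : -(s * a) ≤ β * x ^ (-(2 * s)) := by
        have h7 : 0 ≤ x ^ (-(2 * s)) := by positivity
        have h8 : -|β| * x ^ (-(2 * s)) ≤ β * x ^ (-(2 * s)) :=
          mul_le_mul_of_nonneg_right (neg_abs_le β) h7
        linarith
      have h9 : K * (X x * (a * (2 * s * x ^ (2 * s - 1))) * x ^ β + X x * (β * x ^ (β - 1))) =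
          X x * (K * x ^ (s - m) * (2 * s * a + β * x ^ (-(2 * s)))) := by
        rw [e2, ← e1]; ring
      rw [h9]
      apply mul_le_mul_of_nonneg_left _ (hXp x).le
      refine (h x hx0).trans ?_
      have h10 : 0 ≤ x ^ (s - m) := by positivity
      calc C * (1 + x) ^ (s - m) ≤ C * (2 * x ^ (s - m)) := by gcongr
        _ = x ^ (s - m) * (2 * C) := by ring
        _ ≤ x ^ (s - m) * (K * (s * a)) := mul_le_mul_of_nonneg_left hK1 h10
        _ = K * x ^ (s - m) * (s * a) := by ring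
        _ ≤ K * x ^ (s - m) * (2 * s * a + β * x ^ (-(2 * s))) := by
            apply mul_le_mul_of_nonneg_left _ (by positivity)
            linarith
  have hms : 0 ≤ m + s := by linarith
  refine ⟨max (B * (1 + k0) ^ (m + s)) (K * 2 ^ (m + s)), by positivity, fun k hk => ?_⟩
  have hp : 0 < 1 + k := by linarith
  rcases le_total k k0 with h1 | h1
  · calc ‖g k‖ ≤ B := hB k
      _ = B * (1 + k) ^ (m + s) * (1 + k) ^ (-(m + s)) := by
          rw [mul_assoc, ← Real.rpow_add hp, add_neg_cancel, Real.rpow_zero, mul_one]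
      _ ≤ B * (1 + k0) ^ (m + s) * (1 + k) ^ (-(m + s)) := by
          gcongr
      _ ≤ _ := by
          apply mul_le_mul_of_nonneg_right (le_max_left _ _) (by positivity)
  · have hkp : 0 < k := by linarith
    have h2 := hcmp k h1
    rw [norm_mul, Complex.norm_real, Real.norm_eq_abs, abs_of_pos (mul_pos (hXp _) hkp)] at h2
    have h3 : X k * (k * ‖g k‖) ≤ X k * (K * k ^ β) := by
      calc X k * (k * ‖g k‖) = X k * k * ‖g k‖ := by ring
        _ ≤ K * (X k * k ^ β) := h2
        _ = _ := by ring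
    have h4 := le_of_mul_le_mul_left h3 (hXp k)
    have h5 : ‖g k‖ ≤ K * k ^ (-(m + s)) := by
      have e : k ^ β = k * k ^ (-(m + s)) := by
        nth_rewrite 2 [← Real.rpow_one k]
        rw [← Real.rpow_add hkp]; congr 1; rw [hβ]; ring
      rw [e] at h4
      have h6 : k * ‖g k‖ ≤ k * (K * k ^ (-(m + s))) := by linarith
      exact le_of_mul_le_mul_left h6 hkp
    have h7 : k ^ (-(m + s)) ≤ 2 ^ (m + s) * (1 + k) ^ (-(m + s)) := by
      have h8 : 1 + k ≤ 2 * k := by linarith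
      have h9 := Real.rpow_le_rpow hp.le h8 hms
      rw [Real.mul_rpow (by norm_num) hkp.le] at h9
      rw [Real.rpow_neg hkp.le, Real.rpow_neg hp.le, ← div_eq_mul_inv, inv_eq_one_div,
        div_le_div_iff₀ (by positivity) (by positivity)]
      linarith
    calc ‖g k‖ ≤ K * k ^ (-(m + s)) := h5
      _ ≤ K * (2 ^ (m + s) * (1 + k) ^ (-(m + s))) := by gcongr
      _ = K * 2 ^ (m + s) * (1 + k) ^ (-(m + s)) := by ring
      _ ≤ _ := mul_le_mul_of_nonneg_right (le_max_right _ _) (by positivity)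

end Pool.Agent.R217.NF
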