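import Pool.Agent.R217.NF.Four
import Pool.Agent.R217.NF.Ode
import Pool.Agent.R217.NF.Far
import Pool.Agent.R217.FS.Fub

set_option autoImplicit false
set_option linter.unusedSectionVars false

open MeasureTheory Filter Topology Set
open scoped ContDiff FourierTransform

namespace Pool.Agent.R217.NF

open Pool.Agent.R217.FS (fl sd fubini)

/-- Test functions supported to the left of `b`. -/
def Wt (b : ℝ) (χ : ℝ → ℝ) : Prop := ContDiff ℝ ∞ χ ∧ HasCompactSupport χ ∧ tsupport χ ⊆ Iio b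

/-- The localised function. -/
noncomputable def PU (U χ : ℝ → ℝ) (x : ℝ) : ℂ := ((U x * χ x : ℝ) : ℂ)

/-- Decay of order `m` of the transforms of the localisations. -/
def DD (b : ℝ) (U : ℝ → ℝ) (m : ℝ) : Prop :=
  ∀ χ, Wt b χ → ∃ C : ℝ, 0 ≤ C ∧ ∀ k, ‖𝓕 (PU U χ) k‖ ≤ C * (1 + |k|) ^ (-m)

variable {U : ℝ → ℝ} {M b : ℝ}

lemma exists_cut {η : ℝ → ℝ} (hη : Wt b η) :
    ∃ δ : ℝ, 0 < δ ∧ ∃ η2 : ℝ → ℝ, Wt b η2 ∧ ∀ x h, |h| ≤ δ → η (x + h) ≠ 0 → η2 x = 1 := by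
  obtain ⟨R0, hR0⟩ := hη.2.1.isCompact.isBounded.subset_closedBall (0:ℝ)
  by_cases hne : (tsupport η).Nonempty
  · obtain ⟨β, hβ1, hβ2⟩ := hη.2.1.isCompact.exists_isGreatest hne
    have hβb : β < b := hη.2.2 hβ1
    obtain ⟨δ, hδ⟩ : ∃ δ, δ = (b - β) / 4 := ⟨_, rfl⟩
    have hδ0 : 0 < δ := by rw [hδ]; linarith
    obtain ⟨R, hR⟩ : ∃ R, R = |R0| + |β| + 1 := ⟨_, rfl⟩
    have hrin : 0 < (β + R) / 2 + δ := by
      have := neg_abs_le β
      have := abs_nonneg R0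
      rw [hR]; linarith
    let B : ContDiffBump ((β - R) / 2) := ⟨(β + R) / 2 + δ, (β + R) / 2 + 2 * δ, hrin, by linarith⟩
    refine ⟨δ, hδ0, B, ⟨B.contDiff, B.hasCompactSupport, ?_⟩, ?_⟩
    · rw [B.tsupport_eq]
      intro x hx
      rw [Metric.mem_closedBall, Real.dist_eq] at hx
      have h1 : x - (β - R) / 2 ≤ (β + R) / 2 + 2 * δ := (le_abs_self _).trans hx
      have h2 : x ≤ β + 2 * δ := by linarith
      rw [mem_Iio]; linarith
    · intro x h hh hxh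
      apply B.one_of_mem_closedBall
      rw [Metric.mem_closedBall, Real.dist_eq]
      have h1 : x + h ∈ tsupport η := subset_tsupport η hxh
      have h2 : x + h ≤ β := hβ2 h1
      have h3 := hR0 h1
      rw [mem_closedBall_zero_iff, Real.norm_eq_abs] at h3
      have h4 := abs_le.1 h3
      have h5 := abs_le.1 hh
      have h6 : -R ≤ x + h := by
        have := le_abs_self R0
        have := abs_nonneg β
        rw [hR]; linarith
      rw [abs_le]
      constructor <;> simp only [B] <;> linarith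
  · refine ⟨1, one_pos, η, hη, fun x h _ hxh => ?_⟩
    exact absurd ⟨x + h, subset_tsupport η hxh⟩ hne

lemma Wt.ct {χ : ℝ → ℝ} (h : Wt b χ) : CT (fun x => ((χ x : ℝ) : ℂ)) :=
  ⟨Complex.ofRealCLM.contDiff.comp h.1, h.2.1.comp_left Complex.ofReal_zero⟩

lemma Wt.pint (hU : Measurable U) (hM : ∀ x, |U x| ≤ M) {χ : ℝ → ℝ} (hc : Continuous χ)
    (hs : HasCompactSupport χ) : Integrable (fun x => U x * χ x) :=
  (hc.integrable_of_hasCompactSupport hs).bdd_mul hU.aestronglyMeasurable (c := M)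
    (Eventually.of_forall hM)

lemma pu_int (hU : Measurable U) (hM : ∀ x, |U x| ≤ M) {χ : ℝ → ℝ} (hc : Continuous χ)
    (hs : HasCompactSupport χ) : Integrable (PU U χ) := (Wt.pint hU hM hc hs).ofReal

/-- Differences. -/
lemma diff_bounds (hU : Measurable U) (hM : ∀ x, |U x| ≤ M) {m : ℝ} (hm : 0 ≤ m)
    (hD : DD b U m) {η : ℝ → ℝ} (hη : Wt b η) :
    ∃ δ C : ℝ, 0 < δ ∧ 0 ≤ C ∧ ∀ h k, 0 < h → h ≤ δ →
      ‖𝓕 (PU U (fun x => η (x + h) - η (x - h))) k‖ ≤ C * h * (1 + |k|) ^ (-m) ∧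
      ‖𝓕 (PU U (fun x => 2 * η x - η (x + h) - η (x - h))) k‖ ≤ C * h ^ 2 * (1 + |k|) ^ (-m) := by
  obtain ⟨δ, hδ, η2, hη2, hcut⟩ := exists_cut hη
  obtain ⟨C, hC0, hC⟩ := hD η2 hη2
  have hct := hη.ct
  obtain ⟨I1, hI1⟩ : ∃ I1, I1 = ∫ l, ‖𝓕 (fun x => ((η x : ℝ) : ℂ)) l‖ * (1 + |l|) ^ (m + 1) :=
    ⟨_, rfl⟩
  obtain ⟨I2, hI2⟩ : ∃ I2, I2 = ∫ l, ‖𝓕 (fun x => ((η x : ℝ) : ℂ)) l‖ * (1 + |l|) ^ (m + 2) :=
    ⟨_, rfl⟩
  have hI10 : 0 ≤ I1 := by rw [hI1]; exact integral_nonneg fun l => by positivity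
  have hI20 : 0 ≤ I2 := by rw [hI2]; exact integral_nonneg fun l => by positivity
  refine ⟨δ, C * (4 * Real.pi * I1) + C * (4 * Real.pi ^ 2 * I2), hδ, by positivity, ?_⟩
  intro h k hh hhδ
  have hg : Integrable (PU U η2) := pu_int hU hM hη2.1.continuous hη2.2.1
  have hc1 : ∀ x, η (x + h) ≠ 0 → η2 x = 1 := fun x hx =>
    hcut x h (by rw [abs_of_pos hh]; exact hhδ) hx
  have hc2 : ∀ x, η (x - h) ≠ 0 → η2 x = 1 := fun x hx =>
    hcut x (-h) (by rw [abs_neg, abs_of_pos hh]; exact hhδ) (by rwa [← sub_eq_add_neg])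
  have hc0 : ∀ x, η x ≠ 0 → η2 x = 1 := fun x hx =>
    hcut x 0 (by rw [abs_zero]; exact hδ.le) (by rwa [add_zero])
  have hk : 0 ≤ (1 + |k|) ^ (-m) := by positivity
  constructor
  · obtain ⟨f, hf⟩ : ∃ f : ℝ → ℂ, f = fun x => ((η (x + h) : ℝ) : ℂ) - ((η (x - h) : ℝ) : ℂ) :=
      ⟨_, rfl⟩
    have hfc : CT f := by
      rw [hf]
      refine ⟨(hct.shift h).1.sub (hct.shift (-h)).1, (hct.shift h).2.sub (hct.shift (-h)).2⟩
    have e : PU U (fun x => η (x + h) - η (x - h)) = fun x => f x * PU U η2 x := by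
      funext x
      rw [hf]
      simp only [PU]
      by_cases h1 : η (x + h) = 0
      · by_cases h2 : η (x - h) = 0
        · rw [h1, h2]; simp
        · rw [hc2 x h2]; push_cast; ring
      · rw [hc1 x h1]; push_cast; ring
    rw [e]
    refine (mul_bound hfc hg hm hC k).trans ?_
    have h3 : ∫ l, ‖𝓕 f l‖ * (1 + |l|) ^ m ≤ 4 * Real.pi * h * I1 := by
      rw [hI1, ← integral_const_mul]
      apply integral_mono (hfc.wint m) ((hct.wint (m + 1)).const_mul _)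
      intro l
      change ‖𝓕 f l‖ * (1 + |l|) ^ m ≤
        4 * Real.pi * h * (‖𝓕 (fun x => ((η x : ℝ) : ℂ)) l‖ * (1 + |l|) ^ (m + 1))
      have h4 := diff1 hct h l
      rw [abs_of_pos hh] at h4
      rw [hf]
      have hl : 0 < 1 + |l| := by positivity
      calc _ ≤ 4 * Real.pi * h * (|l| * ‖𝓕 (fun x => ((η x : ℝ) : ℂ)) l‖) * (1 + |l|) ^ m := by
            gcongr
        _ ≤ 4 * Real.pi * h * ((1 + |l|) * ‖𝓕 (fun x => ((η x : ℝ) : ℂ)) l‖) * (1 + |l|) ^ m := by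
            gcongr; linarith
        _ = _ := by rw [Real.rpow_add hl, Real.rpow_one]; ring
    calc C * (∫ l, ‖𝓕 f l‖ * (1 + |l|) ^ m) * (1 + |k|) ^ (-m) ≤
        C * (4 * Real.pi * h * I1) * (1 + |k|) ^ (-m) := by gcongr
      _ = (C * (4 * Real.pi * I1)) * h * (1 + |k|) ^ (-m) := by ring
      _ ≤ _ := by
          gcongr
          have : 0 ≤ C * (4 * Real.pi ^ 2 * I2) := by positivity
          linarith
  · obtain ⟨f, hf⟩ : ∃ f : ℝ → ℂ, f = fun x => 2 * ((η x : ℝ) : ℂ) - ((η (x + h) : ℝ) : ℂ) -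
      ((η (x - h) : ℝ) : ℂ) := ⟨_, rfl⟩
    have hfc : CT f := by
      rw [hf]
      refine ⟨((contDiff_const.mul hct.1).sub (hct.shift h).1).sub (hct.shift (-h)).1,
        ((hct.2.mul_left (f := fun _ => (2:ℂ))).sub (hct.shift h).2).sub (hct.shift (-h)).2⟩
    have e : PU U (fun x => 2 * η x - η (x + h) - η (x - h)) = fun x => f x * PU U η2 x := by
      funext x
      rw [hf]
      simp only [PU]
      by_cases h0 : η x = 0
      · by_cases h1 : η (x + h) = 0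
        · by_cases h2 : η (x - h) = 0
          · rw [h0, h1, h2]; simp
          · rw [hc2 x h2]; push_cast; ring
        · rw [hc1 x h1]; push_cast; ring
      · rw [hc0 x h0]; push_cast; ring
    rw [e]
    refine (mul_bound hfc hg hm hC k).trans ?_
    have h3 : ∫ l, ‖𝓕 f l‖ * (1 + |l|) ^ m ≤ 4 * Real.pi ^ 2 * h ^ 2 * I2 := by
      rw [hI2, ← integral_const_mul]
      apply integral_mono (hfc.wint m) ((hct.wint (m + 2)).const_mul _)
      intro l
      change ‖𝓕 f l‖ * (1 + |l|) ^ m ≤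
        4 * Real.pi ^ 2 * h ^ 2 * (‖𝓕 (fun x => ((η x : ℝ) : ℂ)) l‖ * (1 + |l|) ^ (m + 2))
      have h4 := diff2 hct h l
      rw [hf]
      have hl : 0 < 1 + |l| := by positivity
      calc _ ≤ 4 * Real.pi ^ 2 * h ^ 2 * (|l| ^ 2 * ‖𝓕 (fun x => ((η x : ℝ) : ℂ)) l‖) *
              (1 + |l|) ^ m := by
            gcongr
        _ ≤ 4 * Real.pi ^ 2 * h ^ 2 * ((1 + |l|) ^ 2 * ‖𝓕 (fun x => ((η x : ℝ) : ℂ)) l‖) *
              (1 + |l|) ^ m := by
            gcongr; linarith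
        _ = _ := by rw [Real.rpow_add hl, Real.rpow_two]; ring
    calc C * (∫ l, ‖𝓕 f l‖ * (1 + |l|) ^ m) * (1 + |k|) ^ (-m) ≤
        C * (4 * Real.pi ^ 2 * h ^ 2 * I2) * (1 + |k|) ^ (-m) := by gcongr
      _ = (C * (4 * Real.pi ^ 2 * I2)) * h ^ 2 * (1 + |k|) ^ (-m) := by ring
      _ ≤ _ := by
          gcongr
          have : 0 ≤ C * (4 * Real.pi * I1) := by positivity
          linarith

lemma ee_cs (k x : ℝ) : ee k x = ((Real.cos (2 * Real.pi * k * x) : ℝ) : ℂ) -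
    Complex.I * ((Real.sin (2 * Real.pi * k * x) : ℝ) : ℂ) := by
  unfold ee
  rw [show ((-2 * Real.pi * x * k : ℝ) : ℂ) = -((2 * Real.pi * k * x : ℝ) : ℂ) by
    push_cast; ring, Complex.exp_mul_I, Complex.cos_neg, Complex.sin_neg, ← Complex.ofReal_cos,
    ← Complex.ofReal_sin]
  ring

/-- The two real test functions. -/
noncomputable def φ1 (η : ℝ → ℝ) (k x : ℝ) : ℝ := η x * Real.cos (2 * Real.pi * k * x)
noncomputable def φ2 (η : ℝ → ℝ) (k x : ℝ) : ℝ := η x * Real.sin (2 * Real.pi * k * x)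

lemma φ12 (η : ℝ → ℝ) (k x : ℝ) :
    ((φ1 η k x : ℝ) : ℂ) - Complex.I * ((φ2 η k x : ℝ) : ℂ) = ((η x : ℝ) : ℂ) * ee k x := by
  rw [ee_cs]; unfold φ1 φ2; push_cast; ring

lemma Wt.φ1 {η : ℝ → ℝ} (hη : Wt b η) (k : ℝ) : Wt b (φ1 η k) := by
  refine ⟨hη.1.mul (Real.contDiff_cos.comp (contDiff_const.mul contDiff_id)), hη.2.1.mul_right, ?_⟩
  exact (tsupport_mul_subset_left).trans hη.2.2

lemma Wt.φ2 {η : ℝ → ℝ} (hη : Wt b η) (k : ℝ) : Wt b (φ2 η k) := by
  refine ⟨hη.1.mul (Real.contDiff_sin.comp (contDiff_const.mul contDiff_id)), hη.2.1.mul_right, ?_⟩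
  exact (tsupport_mul_subset_left).trans hη.2.2

lemma Wt.shift_int {η : ℝ → ℝ} (hc : Continuous η) (hs : HasCompactSupport η)
    (hU : Measurable U) (hM : ∀ x, |U x| ≤ M) (h : ℝ) : Integrable (fun x => U x * η (x + h)) :=
  ((hc.integrable_of_hasCompactSupport hs).comp_add_right h).bdd_mul hU.aestronglyMeasurable
    (c := M) (Eventually.of_forall hM)

lemma sd_int {η : ℝ → ℝ} (hc : Continuous η) (hs : HasCompactSupport η)
    (hU : Measurable U) (hM : ∀ x, |U x| ≤ M) (h : ℝ) : Integrable (fun x => U x * sd η h x) := by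
  have i0 := (Wt.shift_int hc hs hU hM 0).const_mul 2
  have i1 := Wt.shift_int hc hs hU hM h
  have i2 := Wt.shift_int hc hs hU hM (-h)
  refine ((i0.sub i1).sub i2).congr (Eventually.of_forall fun x => ?_)
  simp only [Pi.sub_apply, sd, add_zero]
  rw [← sub_eq_add_neg]; ring

/-- The pairing of `U` with the second differences. -/
noncomputable def JJ (U η : ℝ → ℝ) (k h : ℝ) : ℂ :=
  ((∫ x, U x * sd (φ1 η k) h x : ℝ) : ℂ) - Complex.I * ((∫ x, U x * sd (φ2 η k) h x : ℝ) : ℂ)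

/-- The translated pairing. -/
noncomputable def Th (U η : ℝ → ℝ) (k h : ℝ) : ℂ :=
  ∫ x, ((U x : ℝ) : ℂ) * (((η (x + h) : ℝ) : ℂ) * ee k (x + h))

lemma th_int {η : ℝ → ℝ} (hc : Continuous η) (hs : HasCompactSupport η)
    (hU : Measurable U) (hM : ∀ x, |U x| ≤ M) (k h : ℝ) :
    Integrable (fun x => ((U x : ℝ) : ℂ) * (((η (x + h) : ℝ) : ℂ) * ee k (x + h))) := by
  have i1 : Integrable (fun x => ((U x * η (x + h) : ℝ) : ℂ)) :=
    (Wt.shift_int hc hs hU hM h).ofReal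
  have hcc : Continuous fun x => ee k (x + h) := (ee_cont k).comp (continuous_id.add continuous_const)
  have i2 := i1.bdd_mul hcc.aestronglyMeasurable
    (c := 1) (Eventually.of_forall fun x => (ee_norm k (x + h)).le)
  refine i2.congr (Eventually.of_forall fun x => ?_)
  push_cast; ring

lemma JJ_th {η : ℝ → ℝ} (hη : Wt b η)
    (hU : Measurable U) (hM : ∀ x, |U x| ≤ M) (k h : ℝ) :
    JJ U η k h = 2 * 𝓕 (PU U η) k - Th U η k h - Th U η k (-h) := by
  have i1 := sd_int (hη.φ1 k).1.continuous (hη.φ1 k).2.1 hU hM h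
  have i2 := sd_int (hη.φ2 k).1.continuous (hη.φ2 k).2.1 hU hM h
  have t0 := th_int hη.1.continuous hη.2.1 hU hM k 0
  have t1 := th_int hη.1.continuous hη.2.1 hU hM k h
  have t2 := th_int hη.1.continuous hη.2.1 hU hM k (-h)
  unfold JJ
  have i1c : Integrable (fun x => ((U x * sd (φ1 η k) h x : ℝ) : ℂ)) := i1.ofReal
  have i2c : Integrable (fun x => Complex.I * ((U x * sd (φ2 η k) h x : ℝ) : ℂ)) :=
    i2.ofReal.const_mul _
  rw [← integral_complex_ofReal, ← integral_complex_ofReal, ← integral_const_mul,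
    ← integral_sub i1c i2c]
  have e0 : 𝓕 (PU U η) k = ∫ x, ((U x : ℝ) : ℂ) * (((η (x + 0) : ℝ) : ℂ) * ee k (x + 0)) := by
    rw [ft_eq]; congr 1; funext x; unfold PU; rw [add_zero]; push_cast; ring
  rw [e0]
  unfold Th
  have t01 := (t0.const_mul 2).sub t1
  have t01' : Integrable (fun x => 2 * (((U x : ℝ) : ℂ) * (((η (x + 0) : ℝ) : ℂ) * ee k (x + 0))) -
      ((U x : ℝ) : ℂ) * (((η (x + h) : ℝ) : ℂ) * ee k (x + h))) := t01
  rw [← integral_const_mul, ← integral_sub (t0.const_mul 2) t1, ← integral_sub t01' t2]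
  congr 1; funext x
  rw [add_zero, ← φ12, ← φ12, ← φ12]
  simp only [sd]
  rw [← sub_eq_add_neg]
  push_cast; ring

/-- The basic decomposition. -/
lemma JJ_eq {η : ℝ → ℝ} (hη : Wt b η)
    (hU : Measurable U) (hM : ∀ x, |U x| ≤ M) (k h : ℝ) :
    JJ U η k h = ((2 - 2 * Real.cos (2 * Real.pi * k * h) : ℝ) : ℂ) * 𝓕 (PU U η) k +
      (((Real.cos (2 * Real.pi * k * h) : ℝ) : ℂ) *
          𝓕 (PU U (fun x => 2 * η x - η (x + h) - η (x - h))) k +
        Complex.I * ((Real.sin (2 * Real.pi * k * h) : ℝ) : ℂ) *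
          𝓕 (PU U (fun x => η (x + h) - η (x - h))) k) := by
  rw [JJ_th hη hU hM]
  have i0 := (Wt.shift_int hη.1.continuous hη.2.1 hU hM 0)
  have i1 := Wt.shift_int hη.1.continuous hη.2.1 hU hM h
  have i2 := Wt.shift_int hη.1.continuous hη.2.1 hU hM (-h)
  have eb : ∀ f : ℝ → ℂ, Integrable f → Integrable (fun x => ee k x * f x) := fun f hf =>
    hf.bdd_mul (ee_cont k).aestronglyMeasurable (c := 1)
      (Eventually.of_forall fun x => (ee_norm k x).le)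
  obtain ⟨X0, hX0⟩ : ∃ X0, X0 = ∫ x, ee k x * ((U x * η (x + 0) : ℝ) : ℂ) := ⟨_, rfl⟩
  obtain ⟨X1, hX1⟩ : ∃ X1, X1 = ∫ x, ee k x * ((U x * η (x + h) : ℝ) : ℂ) := ⟨_, rfl⟩
  obtain ⟨X2, hX2⟩ : ∃ X2, X2 = ∫ x, ee k x * ((U x * η (x + -h) : ℝ) : ℂ) := ⟨_, rfl⟩
  have e0 : 𝓕 (PU U η) k = X0 := by
    rw [ft_eq, hX0]; congr 1; funext x; unfold PU; rw [add_zero]
  have e1 : Th U η k h = ee k h * X1 := by
    rw [hX1, ← integral_const_mul]; unfold Th; congr 1; funext x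
    rw [ee_addx]; push_cast; ring
  have e2 : Th U η k (-h) = ee k (-h) * X2 := by
    rw [hX2, ← integral_const_mul]; unfold Th; congr 1; funext x
    rw [ee_addx]; push_cast; ring
  have j0 : Integrable (fun x => ee k x * ((U x * η (x + 0) : ℝ) : ℂ)) := eb _ i0.ofReal
  have j1 : Integrable (fun x => ee k x * ((U x * η (x + h) : ℝ) : ℂ)) := eb _ i1.ofReal
  have j2 : Integrable (fun x => ee k x * ((U x * η (x + -h) : ℝ) : ℂ)) := eb _ i2.ofReal
  have e3 : 𝓕 (PU U (fun x => 2 * η x - η (x + h) - η (x - h))) k = 2 * X0 - X1 - X2 := by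
    have j01 : Integrable (fun x => 2 * (ee k x * ((U x * η (x + 0) : ℝ) : ℂ)) -
      ee k x * ((U x * η (x + h) : ℝ) : ℂ)) := (j0.const_mul 2).sub j1
    rw [ft_eq, hX0, hX1, hX2, ← integral_const_mul, ← integral_sub (j0.const_mul 2) j1,
      ← integral_sub j01 j2]
    congr 1; funext x
    unfold PU
    rw [add_zero, ← sub_eq_add_neg]; push_cast; ring
  have e4 : 𝓕 (PU U (fun x => η (x + h) - η (x - h))) k = X1 - X2 := by
    rw [ft_eq, hX1, hX2, ← integral_sub j1 j2]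
    congr 1; funext x
    unfold PU
    rw [← sub_eq_add_neg]; push_cast; ring
  rw [e0, e1, e2, e3, e4, ee_cs k h, ee_cs k (-h)]
  have c1 : Real.cos (2 * Real.pi * k * -h) = Real.cos (2 * Real.pi * k * h) := by
    rw [mul_neg, Real.cos_neg]
  have c2 : Real.sin (2 * Real.pi * k * -h) = -Real.sin (2 * Real.pi * k * h) := by
    rw [mul_neg, Real.sin_neg]
  rw [c1, c2]
  push_cast; ring

end Pool.Agent.R217.NF
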