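import Pool.Agent.R217.NF.Step1

set_option autoImplicit false
set_option linter.unusedSectionVars false

open MeasureTheory Filter Topology Set
open scoped ContDiff FourierTransform

namespace Pool.Agent.R217.NF

open Pool.Agent.R217.FS (fl sd fubini wt wt_integrable)

variable {U : ℝ → ℝ} {M b s : ℝ}

lemma cos_bd (θ : ℝ) : |2 - 2 * Real.cos θ| ≤ 4 ∧ |2 - 2 * Real.cos θ| ≤ θ ^ 2 := by
  have h3 := Real.one_sub_sq_div_two_le_cos (x := θ)
  have h4 := Real.cos_le_one θ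
  have h5 := Real.neg_one_le_cos θ
  rw [abs_of_nonneg (by linarith)]
  constructor <;> linarith

lemma sym_int (hs : 0 < s) (hs1 : s < 1) (k : ℝ) :
    IntegrableOn (fun h : ℝ => (2 - 2 * Real.cos (2 * Real.pi * k * h)) / h ^ (1 + 2 * s)) (Ioi 0) := by
  apply ((wt_integrable hs hs1).const_mul (4 * Real.pi ^ 2 * k ^ 2 + 4)).mono'
  · apply Measurable.aestronglyMeasurable
    fun_prop
  · filter_upwards [ae_restrict_mem measurableSet_Ioi] with h hh
    have hh0 : 0 < h := hh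
    have hp : 0 < h ^ (1 + 2 * s) := by positivity
    obtain ⟨b1, b2⟩ := cos_bd (2 * Real.pi * k * h)
    rw [Real.norm_eq_abs, abs_div, abs_of_pos hp, div_le_iff₀ hp]
    have hw : 0 ≤ wt s h := by unfold wt; split_ifs <;> positivity
    rcases le_or_gt h 1 with h1 | h1
    · rw [wt, if_pos h1, mul_assoc (4 * Real.pi ^ 2 * k ^ 2 + 4), ← Real.rpow_add hh0]
      have e4 : (1 - 2 * s + (1 + 2 * s)) = ((2:ℕ):ℝ) := by push_cast; ring
      rw [e4, Real.rpow_natCast]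
      nlinarith [sq_nonneg h]
    · rw [wt, if_neg (not_le.2 h1), mul_assoc (4 * Real.pi ^ 2 * k ^ 2 + 4), ← Real.rpow_add hh0]
      have e4 : (-(1 + 2 * s) + (1 + 2 * s)) = 0 := by ring
      rw [e4, Real.rpow_zero]
      have : 0 ≤ Real.pi ^ 2 * k ^ 2 := by positivity
      linarith

/-- The constant of the symbol. -/
noncomputable def c1 (s : ℝ) : ℝ :=
  ∫ h in Ioi (0:ℝ), (2 - 2 * Real.cos (2 * Real.pi * h)) / h ^ (1 + 2 * s)

lemma sym_scale {k : ℝ} (hk : 0 < k) :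
    ∫ h in Ioi (0:ℝ), (2 - 2 * Real.cos (2 * Real.pi * k * h)) / h ^ (1 + 2 * s) =
      c1 s * k ^ (2 * s) := by
  have h1 := integral_comp_mul_left_Ioi
    (fun h : ℝ => (2 - 2 * Real.cos (2 * Real.pi * h)) / h ^ (1 + 2 * s)) 0 hk
  rw [mul_zero, smul_eq_mul] at h1
  have h2 : ∫ h in Ioi (0:ℝ), (2 - 2 * Real.cos (2 * Real.pi * k * h)) / h ^ (1 + 2 * s) =
      ∫ h in Ioi (0:ℝ), k ^ (1 + 2 * s) *
        ((2 - 2 * Real.cos (2 * Real.pi * (k * h))) / (k * h) ^ (1 + 2 * s)) := by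
    apply setIntegral_congr_fun measurableSet_Ioi
    intro h hh
    have hh0 : 0 < h := hh
    simp only
    rw [Real.mul_rpow hk.le hh0.le, ← mul_assoc (2 * Real.pi)]
    have : k ^ (1 + 2 * s) ≠ 0 := by positivity
    have : h ^ (1 + 2 * s) ≠ 0 := by positivity
    field_simp
  rw [h2, integral_const_mul, h1]
  unfold c1
  rw [← mul_assoc, mul_comm]
  congr 1
  rw [← Real.rpow_neg_one, ← Real.rpow_add hk]; congr 1; ring

lemma c1_pos (hs : 0 < s) (hs1 : s < 1) : 0 < c1 s := by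
  have hi := sym_int hs hs1 1
  simp only [mul_one] at hi
  have hsub : Ioc (1/4:ℝ) (1/2) ⊆ Ioi 0 := fun x hx => by
    have := hx.1
    rw [mem_Ioi]; linarith
  have h1 : ∫ h in Ioc (1/4:ℝ) (1/2), (2 - 2 * Real.cos (2 * Real.pi * h)) / h ^ (1 + 2 * s) ≤
      c1 s := by
    apply setIntegral_mono_set hi
    · filter_upwards [ae_restrict_mem measurableSet_Ioi] with h hh
      have hh0 : 0 < h := hh
      have := Real.cos_le_one (2 * Real.pi * h)
      have : 0 ≤ 2 - 2 * Real.cos (2 * Real.pi * h) := by linarith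
      simp only [Pi.zero_apply]
      positivity
    · exact LE.le.eventuallyLE hsub
  have h2 : ∫ _h in Ioc (1/4:ℝ) (1/2), (2:ℝ) ≤
      ∫ h in Ioc (1/4:ℝ) (1/2), (2 - 2 * Real.cos (2 * Real.pi * h)) / h ^ (1 + 2 * s) := by
    apply setIntegral_mono_on
    · exact integrableOn_const (by simp)
    · exact hi.mono_set hsub
    · exact measurableSet_Ioc
    · intro h hh
      have hh0 : 0 < h := by linarith [hh.1]
      have hcos : Real.cos (2 * Real.pi * h) ≤ 0 := by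
        apply Real.cos_nonpos_of_pi_div_two_le_of_le
        · nlinarith [Real.pi_pos, hh.1]
        · nlinarith [Real.pi_pos, hh.2]
      have hp : 0 < h ^ (1 + 2 * s) := by positivity
      have hp1 : h ^ (1 + 2 * s) ≤ 1 := Real.rpow_le_one hh0.le (by linarith [hh.2]) (by linarith)
      rw [le_div_iff₀ hp]; linarith
  have h3 : ∫ _h in Ioc (1/4:ℝ) (1/2), (2:ℝ) = 1 / 2 := by
    rw [setIntegral_const, Measure.real, Real.volume_Ioc, ENNReal.toReal_ofReal (by norm_num)]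
    norm_num
  linarith

/-- The error term. -/
noncomputable def EE (U η : ℝ → ℝ) (k h : ℝ) : ℂ :=
  ((Real.cos (2 * Real.pi * k * h) : ℝ) : ℂ) *
      𝓕 (PU U (fun x => 2 * η x - η (x + h) - η (x - h))) k +
    Complex.I * ((Real.sin (2 * Real.pi * k * h) : ℝ) : ℂ) *
      𝓕 (PU U (fun x => η (x + h) - η (x - h))) k

/-- Fubini in complex form. -/
lemma pair_eq (hs : 0 < s) (hs1 : s < 1) {η : ℝ → ℝ} (hη : Wt b η)
    (hU : Measurable U) (hM : ∀ x, |U x| ≤ M) {k : ℝ} (hk : 0 < k) :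
    IntegrableOn (fun h : ℝ => EE U η k h / ((h ^ (1 + 2 * s) : ℝ) : ℂ)) (Ioi 0) ∧
    ((∫ x, U x * fl s (φ1 η k) x : ℝ) : ℂ) - Complex.I * ((∫ x, U x * fl s (φ2 η k) x : ℝ) : ℂ) =
      ((c1 s * k ^ (2 * s) : ℝ) : ℂ) * 𝓕 (PU U η) k +
        ∫ h in Ioi (0:ℝ), EE U η k h / ((h ^ (1 + 2 * s) : ℝ) : ℂ) := by
  obtain ⟨f1, g1⟩ := fubini (hη.φ1 k).1 (hη.φ1 k).2.1 hs hs1 hU hM
  obtain ⟨f2, g2⟩ := fubini (hη.φ2 k).1 (hη.φ2 k).2.1 hs hs1 hU hM
  have g1c : IntegrableOn (fun h : ℝ =>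
    (((∫ z, U z * sd (φ1 η k) h z) / h ^ (1 + 2 * s) : ℝ) : ℂ)) (Ioi 0) := g1.ofReal
  have g2c : IntegrableOn (fun h : ℝ =>
    Complex.I * (((∫ z, U z * sd (φ2 η k) h z) / h ^ (1 + 2 * s) : ℝ) : ℂ)) (Ioi 0) :=
    g2.ofReal.const_mul _
  have hJ : IntegrableOn (fun h : ℝ => JJ U η k h / ((h ^ (1 + 2 * s) : ℝ) : ℂ)) (Ioi 0) := by
    refine (g1c.sub g2c).congr (Eventually.of_forall fun h => ?_)
    simp only [Pi.sub_apply, JJ]
    push_cast; ring
  have hσ : IntegrableOn (fun h : ℝ => (((2 - 2 * Real.cos (2 * Real.pi * k * h)) /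
      h ^ (1 + 2 * s) : ℝ) : ℂ) * 𝓕 (PU U η) k) (Ioi 0) :=
    (sym_int hs hs1 k).ofReal.mul_const _
  have hEq : ∀ h : ℝ, EE U η k h / ((h ^ (1 + 2 * s) : ℝ) : ℂ) =
      JJ U η k h / ((h ^ (1 + 2 * s) : ℝ) : ℂ) -
      (((2 - 2 * Real.cos (2 * Real.pi * k * h)) / h ^ (1 + 2 * s) : ℝ) : ℂ) * 𝓕 (PU U η) k := by
    intro h
    rw [JJ_eq hη hU hM]
    unfold EE
    push_cast; ring
  constructor
  · refine (hJ.sub hσ).congr (Eventually.of_forall fun h => ?_)
    simp only [Pi.sub_apply, hEq]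
  · simp_rw [hEq]
    rw [integral_sub hJ hσ, integral_mul_const, integral_complex_ofReal, sym_scale hk,
      add_sub_cancel, f1, f2, ← integral_complex_ofReal, ← integral_complex_ofReal,
      ← integral_const_mul, ← integral_sub g1c g2c]
    congr 1; funext h
    simp only [JJ]
    push_cast; ring

lemma sin_bd (hs : 0 < s) (hs1 : s < 1) (θ : ℝ) : |Real.sin θ| ≤ |θ| ^ s := by
  rcases le_or_gt |θ| 1 with h | h
  · refine Real.abs_sin_le_abs.trans ?_
    rcases eq_or_lt_of_le (abs_nonneg θ) with h0 | h0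
    · rw [← h0]; positivity
    · calc |θ| = |θ| ^ (1:ℝ) := (Real.rpow_one _).symm
        _ ≤ |θ| ^ s := Real.rpow_le_rpow_of_exponent_ge h0 h hs1.le
  · exact (Real.abs_sin_le_one θ).trans (Real.one_le_rpow h.le hs.le)

/-- Bound of the local part. -/
lemma EE_near (hs : 0 < s) (hs1 : s < 1) {C m k h : ℝ} (hk : 0 < k) (hh : 0 < h)
    {η : ℝ → ℝ}
    (h1 : ‖𝓕 (PU U (fun x => η (x + h) - η (x - h))) k‖ ≤ C * h * (1 + |k|) ^ (-m))
    (h2 : ‖𝓕 (PU U (fun x => 2 * η x - η (x + h) - η (x - h))) k‖ ≤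
      C * h ^ 2 * (1 + |k|) ^ (-m)) :
    ‖EE U η k h / ((h ^ (1 + 2 * s) : ℝ) : ℂ)‖ ≤
      C * (1 + k) ^ (-m) * (h ^ (1 - 2 * s) + (2 * Real.pi * k) ^ s * h ^ (-s)) := by
  have hp : 0 < h ^ (1 + 2 * s) := by positivity
  rw [abs_of_pos hk] at h1 h2
  rw [norm_div, Complex.norm_real, Real.norm_eq_abs, abs_of_pos hp, div_le_iff₀ hp]
  have hX : 0 ≤ (1 + k) ^ (-m) := by positivity
  have e1 : h ^ (1 - 2 * s) * h ^ (1 + 2 * s) = h ^ 2 := by
    rw [← Real.rpow_add hh, ← Real.rpow_two]; congr 1; ring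
  have e2 : h ^ (-s) * h ^ (1 + 2 * s) = h ^ s * h := by
    rw [← Real.rpow_add hh]
    nth_rewrite 3 [← Real.rpow_one h]
    rw [← Real.rpow_add hh]; congr 1; ring
  have e3 : |2 * Real.pi * k * h| ^ s = (2 * Real.pi * k) ^ s * h ^ s := by
    rw [abs_of_pos (by positivity), Real.mul_rpow (by positivity) hh.le]
  calc ‖EE U η k h‖ ≤ |Real.cos (2 * Real.pi * k * h)| *
        ‖𝓕 (PU U (fun x => 2 * η x - η (x + h) - η (x - h))) k‖ +
        |Real.sin (2 * Real.pi * k * h)| * ‖𝓕 (PU U (fun x => η (x + h) - η (x - h))) k‖ := by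
        unfold EE
        refine (norm_add_le _ _).trans (le_of_eq ?_)
        rw [norm_mul, norm_mul, norm_mul, Complex.norm_I, one_mul, Complex.norm_real,
          Complex.norm_real, Real.norm_eq_abs, Real.norm_eq_abs]
    _ ≤ 1 * (C * h ^ 2 * (1 + k) ^ (-m)) +
        ((2 * Real.pi * k) ^ s * h ^ s) * (C * h * (1 + k) ^ (-m)) := by
        rw [← e3]
        gcongr
        · exact Real.abs_cos_le_one _
        · exact sin_bd hs hs1 _
    _ = C * (1 + k) ^ (-m) * (h ^ 2 + (2 * Real.pi * k) ^ s * (h ^ s * h)) := by ring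
    _ = _ := by rw [← e1, ← e2]; ring

/-- The far part. -/
lemma far_eq {η : ℝ → ℝ} (hη : Wt b η) (hU : Measurable U) (hM : ∀ x, |U x| ≤ M) {a δ : ℝ}
    (ha : 1 < a) (hδ : 0 < δ) (k : ℝ) :
    Integrable (fun h : ℝ => ((rho a δ hδ h : ℝ) : ℂ) * Th U η k h) ∧
    ∫ h : ℝ, ((rho a δ hδ h : ℝ) : ℂ) * Th U η k h =
      𝓕 (fun y => ((η y * ∫ x, rho a δ hδ (y - x) * U x : ℝ) : ℂ)) k := by
  have hr : Integrable (rho a δ hδ) := (rho_RC (by linarith)).integrable ha
  have hsh : ∀ h, Th U η k h = ∫ y, ((U (y - h) : ℝ) : ℂ) * (((η y : ℝ) : ℂ) * ee k y) := by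
    intro h
    unfold Th
    rw [← integral_sub_right_eq_self
      (fun x => ((U x : ℝ) : ℂ) * (((η (x + h) : ℝ) : ℂ) * ee k (x + h))) h]
    congr 1; funext y
    rw [sub_add_cancel]
  have hφi : Integrable (fun y => ((η y : ℝ) : ℂ) * ee k y) := by
    have h1 : Integrable (fun y => ((η y : ℝ) : ℂ)) :=
      (hη.1.continuous.integrable_of_hasCompactSupport hη.2.1).ofReal
    refine (h1.bdd_mul (ee_cont k).aestronglyMeasurable (c := 1)
      (Eventually.of_forall fun x => (ee_norm k x).le)).congr (Eventually.of_forall fun x => ?_)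
    ring
  have hprod : Integrable (fun p : ℝ × ℝ => ((rho a δ hδ p.1 : ℝ) : ℂ) *
      (((U (p.2 - p.1) : ℝ) : ℂ) * (((η p.2 : ℝ) : ℂ) * ee k p.2)))
      ((volume : Measure ℝ).prod volume) := by
    have h3 : Integrable (fun p : ℝ × ℝ => ((rho a δ hδ p.1 : ℝ) : ℂ) *
        (((η p.2 : ℝ) : ℂ) * ee k p.2)) ((volume : Measure ℝ).prod volume) := hr.ofReal.mul_prod hφi
    have hm : Measurable (fun p : ℝ × ℝ => ((U (p.2 - p.1) : ℝ) : ℂ)) :=
      Complex.measurable_ofReal.comp (hU.comp (by fun_prop))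
    refine (h3.bdd_mul hm.aestronglyMeasurable (c := M) (Eventually.of_forall fun p => ?_)).congr
      (Eventually.of_forall fun p => ?_)
    · rw [Complex.norm_real]; exact hM _
    · ring
  have hL : ∀ h, ((rho a δ hδ h : ℝ) : ℂ) * Th U η k h = ∫ y, ((rho a δ hδ h : ℝ) : ℂ) *
      (((U (y - h) : ℝ) : ℂ) * (((η y : ℝ) : ℂ) * ee k y)) := by
    intro h
    rw [hsh, integral_const_mul]
  constructor
  · refine hprod.integral_prod_left.congr (Eventually.of_forall fun h => ?_)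
    exact (hL h).symm
  · simp_rw [hL]
    rw [integral_integral_swap (f := fun h y => ((rho a δ hδ h : ℝ) : ℂ) *
      (((U (y - h) : ℝ) : ℂ) * (((η y : ℝ) : ℂ) * ee k y))) hprod, ft_eq]
    congr 1; funext y
    have e1 : ∫ x, rho a δ hδ (y - x) * U x = ∫ h, rho a δ hδ h * U (y - h) := by
      rw [← integral_sub_left_eq_self (fun h => rho a δ hδ h * U (y - h)) volume y]
      congr 1; funext x
      rw [sub_sub_cancel]
    rw [e1]
    push_cast
    rw [← integral_complex_ofReal, ← integral_const_mul, ← integral_const_mul]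
    congr 1; funext h
    push_cast; ring

end Pool.Agent.R217.NF
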