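import Pool.Agent.R217.NF.Step2

set_option autoImplicit false
set_option linter.unusedSectionVars false

open MeasureTheory Filter Topology Set
open scoped ContDiff FourierTransform

namespace Pool.Agent.R217.NF

open Pool.Agent.R217.FS (fl sd fubini wt wt_integrable)

variable {U : ℝ → ℝ} {M b s : ℝ}

lemma EE_th {η : ℝ → ℝ} (hη : Wt b η) (hU : Measurable U) (hM : ∀ x, |U x| ≤ M) (k h : ℝ) :
    EE U η k h = ((2 * Real.cos (2 * Real.pi * k * h) : ℝ) : ℂ) * 𝓕 (PU U η) k - Th U η k h -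
      Th U η k (-h) := by
  have h1 := JJ_eq hη hU hM k h
  have h2 := JJ_th hη hU hM k h
  rw [h2] at h1
  have h3 : EE U η k h = (2 * 𝓕 (PU U η) k - Th U η k h - Th U η k (-h)) -
      ((2 - 2 * Real.cos (2 * Real.pi * k * h) : ℝ) : ℂ) * 𝓕 (PU U η) k := by
    rw [h1]; unfold EE; ring
  rw [h3]; push_cast; ring

lemma EE_bound (hs : 0 < s) (hs1 : s < 1) (hU : Measurable U) (hM : ∀ x, |U x| ≤ M) {m : ℝ}
    (hm : 0 ≤ m) (hD : DD b U m) {η : ℝ → ℝ} (hη : Wt b η) :
    ∃ C : ℝ, 0 ≤ C ∧ ∀ k, 0 < k →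
      ‖∫ h in Ioi (0:ℝ), EE U η k h / ((h ^ (1 + 2 * s) : ℝ) : ℂ)‖ ≤ C * (1 + k) ^ (s - m) := by
  obtain ⟨δ, C, hδ, hC, hb⟩ := diff_bounds hU hM hm hD hη
  obtain ⟨CW, hCW0, hCW⟩ := hD η hη
  have ha : 1 < 1 + 2 * s := by linarith
  have hr : Integrable (rho (1 + 2 * s) δ hδ) := (rho_RC (by linarith)).integrable ha
  obtain ⟨Ir, hIr⟩ : ∃ Ir, Ir = ∫ h in Ioi (0:ℝ), rho (1 + 2 * s) δ hδ h * 2 := ⟨_, rfl⟩
  have hIr0 : 0 ≤ Ir := by
    rw [hIr]
    exact integral_nonneg fun h => mul_nonneg (rho_nonneg h) (by norm_num)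
  -- the far field
  have hG : ContDiff ℝ ∞ (fun y => ∫ x, rho (1 + 2 * s) δ hδ (y - x) * U x) :=
    phi_smooth ha hU hM (rho_RC (by linarith))
  have hCT : CT (fun y => ((η y * ∫ x, rho (1 + 2 * s) δ hδ (y - x) * U x : ℝ) : ℂ)) := by
    refine ⟨Complex.ofRealCLM.contDiff.comp (hη.1.mul hG), ?_⟩
    exact (hη.2.1.mul_right (f' := fun y => ∫ x, rho (1 + 2 * s) δ hδ (y - x) * U x)).comp_left
      (g := fun r : ℝ => (r : ℂ)) Complex.ofReal_zero
  obtain ⟨CF, hCF0, hCF⟩ := hCT.decayr m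
  obtain ⟨I1, hI1⟩ : ∃ I1, I1 = ∫ h in Ioc (0:ℝ) δ, h ^ (1 - 2 * s) := ⟨_, rfl⟩
  obtain ⟨I2, hI2⟩ : ∃ I2, I2 = ∫ h in Ioc (0:ℝ) δ, h ^ (-s) := ⟨_, rfl⟩
  have i1 : IntegrableOn (fun h : ℝ => h ^ (1 - 2 * s)) (Ioc 0 δ) := by
    rw [← intervalIntegrable_iff_integrableOn_Ioc_of_le hδ.le]
    exact intervalIntegral.intervalIntegrable_rpow' (by linarith)
  have i2 : IntegrableOn (fun h : ℝ => h ^ (-s)) (Ioc 0 δ) := by
    rw [← intervalIntegrable_iff_integrableOn_Ioc_of_le hδ.le]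
    exact intervalIntegral.intervalIntegrable_rpow' (by linarith)
  have hI10 : 0 ≤ I1 := by
    rw [hI1]; exact setIntegral_nonneg measurableSet_Ioc fun h hh => Real.rpow_nonneg hh.1.le _
  have hI20 : 0 ≤ I2 := by
    rw [hI2]; exact setIntegral_nonneg measurableSet_Ioc fun h hh => Real.rpow_nonneg hh.1.le _
  refine ⟨C * (I1 + (2 * Real.pi) ^ s * I2) + Ir * CW + CF, by positivity, fun k hk => ?_⟩
  obtain ⟨hint, -⟩ := pair_eq hs hs1 hη hU hM hk
  obtain ⟨f, hf⟩ : ∃ f : ℝ → ℂ, f = fun h => EE U η k h / ((h ^ (1 + 2 * s) : ℝ) : ℂ) := ⟨_, rfl⟩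
  have hfi : IntegrableOn f (Ioi 0) := by rw [hf]; exact hint
  have hcm : AEStronglyMeasurable (fun h : ℝ => ((ch δ hδ h : ℝ) : ℂ)) (volume.restrict (Ioi 0)) :=
    (Complex.continuous_ofReal.comp (ch δ hδ).continuous).aestronglyMeasurable
  have hchi : ∀ h : ℝ, 0 ≤ ch δ hδ h ∧ ch δ hδ h ≤ 1 := fun h =>
    ⟨(ch δ hδ).nonneg, (ch δ hδ).le_one⟩
  have hA : IntegrableOn (fun h => ((ch δ hδ h : ℝ) : ℂ) * f h) (Ioi 0) :=
    hfi.bdd_mul hcm (c := 1) (Eventually.of_forall fun h => by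
      rw [Complex.norm_real, Real.norm_eq_abs, abs_of_nonneg (hchi h).1]; exact (hchi h).2)
  have hB : IntegrableOn (fun h => f h - ((ch δ hδ h : ℝ) : ℂ) * f h) (Ioi 0) := hfi.sub hA
  have hsplit : ∫ h in Ioi (0:ℝ), f h = (∫ h in Ioi (0:ℝ), ((ch δ hδ h : ℝ) : ℂ) * f h) +
      ∫ h in Ioi (0:ℝ), (f h - ((ch δ hδ h : ℝ) : ℂ) * f h) := by
    rw [← integral_add hA hB]
    congr 1; funext h; ring
  -- the near part
  have hk1 : 0 < 1 + k := by linarith
  have hnear : ‖∫ h in Ioi (0:ℝ), ((ch δ hδ h : ℝ) : ℂ) * f h‖ ≤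
      C * (1 + k) ^ (-m) * (I1 + (2 * Real.pi * k) ^ s * I2) := by
    have hg : IntegrableOn (fun h : ℝ => C * (1 + k) ^ (-m) *
        (h ^ (1 - 2 * s) + (2 * Real.pi * k) ^ s * h ^ (-s))) (Ioc 0 δ) :=
      (i1.add (i2.const_mul _)).const_mul _
    have hIoc : ∫ h in Ioi (0:ℝ), ((ch δ hδ h : ℝ) : ℂ) * f h =
        ∫ h in Ioc (0:ℝ) δ, ((ch δ hδ h : ℝ) : ℂ) * f h := by
      apply setIntegral_eq_of_subset_of_forall_sdiff_eq_zero measurableSet_Ioi
        Ioc_subset_Ioi_self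
      intro h hh
      have h1 : 0 < h := hh.1
      have h2 : δ < h := by
        by_contra hcon
        exact hh.2 ⟨h1, not_lt.1 hcon⟩
      rw [ch_zero (by rw [abs_of_pos h1]; exact h2.le)]
      simp
    rw [hIoc]
    refine (norm_integral_le_of_norm_le hg ?_).trans (le_of_eq ?_)
    · filter_upwards [ae_restrict_mem measurableSet_Ioc] with h hh
      obtain ⟨b1, b2⟩ := hb h k hh.1 hh.2
      have hE := EE_near hs hs1 hk hh.1 b1 b2
      rw [norm_mul, Complex.norm_real, Real.norm_eq_abs, abs_of_nonneg (hchi h).1]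
      have h0 : 0 ≤ ‖f h‖ := norm_nonneg _
      refine (mul_le_of_le_one_left h0 (hchi h).2).trans ?_
      rw [hf]; exact hE
    · rw [integral_const_mul, integral_add i1 (i2.const_mul _), integral_const_mul, hI1, hI2]
  -- the far part
  obtain ⟨r1, r2⟩ := far_eq hη hU hM ha hδ k
  have hfar : ∫ h in Ioi (0:ℝ), (f h - ((ch δ hδ h : ℝ) : ℂ) * f h) =
      (∫ h in Ioi (0:ℝ), ((rho (1 + 2 * s) δ hδ h * (2 * Real.cos (2 * Real.pi * k * h)) : ℝ) : ℂ)) *
        𝓕 (PU U η) k -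
      𝓕 (fun y => ((η y * ∫ x, rho (1 + 2 * s) δ hδ (y - x) * U x : ℝ) : ℂ)) k := by
    have j1 : IntegrableOn (fun h => ((rho (1 + 2 * s) δ hδ h *
        (2 * Real.cos (2 * Real.pi * k * h)) : ℝ) : ℂ) * 𝓕 (PU U η) k) (Ioi 0) := by
      have : Integrable (fun h => rho (1 + 2 * s) δ hδ h * (2 * Real.cos (2 * Real.pi * k * h))) := by
        refine (hr.bdd_mul (f := fun h => 2 * Real.cos (2 * Real.pi * k * h)) (c := 2)
          (by fun_prop) (Eventually.of_forall fun h => ?_)).congr (Eventually.of_forall fun h => ?_)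
        · rw [Real.norm_eq_abs, abs_mul, abs_two]
          have := Real.abs_cos_le_one (2 * Real.pi * k * h)
          linarith
        · simp only; ring
      exact (this.integrableOn.ofReal).mul_const _
    have j2 : IntegrableOn (fun h => ((rho (1 + 2 * s) δ hδ h : ℝ) : ℂ) * Th U η k h) (Ioi 0) :=
      r1.integrableOn
    have j3 : IntegrableOn (fun h => ((rho (1 + 2 * s) δ hδ h : ℝ) : ℂ) * Th U η k (-h)) (Ioi 0) := by
      have h1 := r1.comp_neg
      refine (h1.integrableOn).congr (Eventually.of_forall fun h => ?_)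
      simp only [rho_even]
    have e0 : ∫ h in Ioi (0:ℝ), (f h - ((ch δ hδ h : ℝ) : ℂ) * f h) =
        ∫ h in Ioi (0:ℝ), (((rho (1 + 2 * s) δ hδ h * (2 * Real.cos (2 * Real.pi * k * h)) : ℝ) : ℂ) *
          𝓕 (PU U η) k - ((rho (1 + 2 * s) δ hδ h : ℝ) : ℂ) * Th U η k h -
          ((rho (1 + 2 * s) δ hδ h : ℝ) : ℂ) * Th U η k (-h)) := by
      apply setIntegral_congr_fun measurableSet_Ioi
      intro h hh
      have hh0 : 0 < h := hh
      have hp : ((h ^ (1 + 2 * s) : ℝ) : ℂ) ≠ 0 := by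
        rw [Complex.ofReal_ne_zero]; positivity
      simp only
      rw [hf]
      simp only
      rw [EE_th hη hU hM]
      unfold rho
      rw [abs_of_pos hh0, Real.rpow_neg hh0.le]
      push_cast
      field_simp
    have j12 : IntegrableOn (fun h => ((rho (1 + 2 * s) δ hδ h *
        (2 * Real.cos (2 * Real.pi * k * h)) : ℝ) : ℂ) * 𝓕 (PU U η) k -
        ((rho (1 + 2 * s) δ hδ h : ℝ) : ℂ) * Th U η k h) (Ioi 0) := j1.sub j2
    rw [e0, integral_sub j12 j3, integral_sub j1 j2, integral_mul_const, ← r2]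
    have e1 : ∫ h in Ioi (0:ℝ), ((rho (1 + 2 * s) δ hδ h : ℝ) : ℂ) * Th U η k (-h) =
        ∫ h in Iic (0:ℝ), ((rho (1 + 2 * s) δ hδ h : ℝ) : ℂ) * Th U η k h := by
      have := integral_comp_neg_Ioi (0:ℝ) (fun h => ((rho (1 + 2 * s) δ hδ h : ℝ) : ℂ) * Th U η k h)
      rw [neg_zero] at this
      rw [← this]
      congr 1; funext h
      rw [rho_even]
    have e2 : (∫ h in Iic (0:ℝ), ((rho (1 + 2 * s) δ hδ h : ℝ) : ℂ) * Th U η k h) +
        ∫ h in Ioi (0:ℝ), ((rho (1 + 2 * s) δ hδ h : ℝ) : ℂ) * Th U η k h =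
        ∫ h : ℝ, ((rho (1 + 2 * s) δ hδ h : ℝ) : ℂ) * Th U η k h := by
      rw [← integral_add_compl (measurableSet_Iic (a := (0:ℝ))) r1, compl_Iic]
    rw [e1, ← e2]; ring
  have hfarb : ‖∫ h in Ioi (0:ℝ), (f h - ((ch δ hδ h : ℝ) : ℂ) * f h)‖ ≤
      (Ir * CW + CF) * (1 + k) ^ (-m) := by
    rw [hfar]
    refine (norm_sub_le _ _).trans ?_
    rw [norm_mul]
    have n1 : ‖∫ h in Ioi (0:ℝ), ((rho (1 + 2 * s) δ hδ h *
        (2 * Real.cos (2 * Real.pi * k * h)) : ℝ) : ℂ)‖ ≤ Ir := by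
      rw [hIr]
      apply norm_integral_le_of_norm_le ((hr.mul_const 2).integrableOn)
      refine Eventually.of_forall fun h => ?_
      rw [Complex.norm_real, Real.norm_eq_abs, abs_mul, abs_of_nonneg (rho_nonneg h), abs_mul,
        abs_two]
      have := Real.abs_cos_le_one (2 * Real.pi * k * h)
      have := rho_nonneg (a := 1 + 2 * s) (δ := δ) (hδ := hδ) h
      gcongr
      linarith
    have n2 := hCW k
    have n3 := hCF k
    rw [abs_of_pos hk] at n2 n3
    calc _ ≤ Ir * (CW * (1 + k) ^ (-m)) + CF * (1 + k) ^ (-m) := by gcongr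
      _ = _ := by ring
  have hfe : ∫ h in Ioi (0:ℝ), EE U η k h / ((h ^ (1 + 2 * s) : ℝ) : ℂ) = ∫ h in Ioi (0:ℝ), f h := by
    rw [hf]
  rw [hfe, hsplit]
  refine (norm_add_le _ _).trans ?_
  have hks : (2 * Real.pi * k) ^ s ≤ (2 * Real.pi) ^ s * (1 + k) ^ s := by
    rw [Real.mul_rpow (by positivity) hk.le]
    gcongr
    linarith
  have h1s : 1 ≤ (1 + k) ^ s := Real.one_le_rpow (by linarith) hs.le
  have hms : (1 + k) ^ (s - m) = (1 + k) ^ (-m) * (1 + k) ^ s := by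
    rw [← Real.rpow_add hk1]; congr 1; ring
  have hmp : 0 ≤ (1 + k) ^ (-m) := by positivity
  have f1 : C * (1 + k) ^ (-m) * (I1 + (2 * Real.pi * k) ^ s * I2) ≤
      C * (I1 + (2 * Real.pi) ^ s * I2) * (1 + k) ^ (s - m) := by
    rw [hms]
    calc C * (1 + k) ^ (-m) * (I1 + (2 * Real.pi * k) ^ s * I2) ≤
        C * (1 + k) ^ (-m) * (I1 * (1 + k) ^ s + ((2 * Real.pi) ^ s * (1 + k) ^ s) * I2) := by
          gcongr
          exact le_mul_of_one_le_right hI10 h1s
      _ = _ := by ring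
  have f2 : (Ir * CW + CF) * (1 + k) ^ (-m) ≤ (Ir * CW + CF) * (1 + k) ^ (s - m) := by
    apply mul_le_mul_of_nonneg_left _ (by positivity)
    rw [hms]
    exact le_mul_of_one_le_right hmp h1s
  linarith

lemma xeta {η : ℝ → ℝ} (hη : Wt b η) : Wt b (fun x => x * deriv η x) := by
  have hd : ContDiff ℝ ∞ (deriv η) := (contDiff_infty_iff_deriv.1 hη.1).2
  refine ⟨contDiff_id.mul hd, hη.2.1.deriv.mul_left, ?_⟩
  refine (tsupport_mul_subset_right (f := fun x : ℝ => x) (g := deriv η)).trans ?_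
  refine (closure_minimal support_deriv_subset (isClosed_tsupport η)).trans hη.2.2

/-- The transport part. -/
lemma trans_eq {η : ℝ → ℝ} (hη : Wt b η) (hU : Measurable U) (hM : ∀ x, |U x| ≤ M) (k : ℝ) :
    ((∫ x, U x * deriv (fun y => y * φ1 η k y) x : ℝ) : ℂ) -
      Complex.I * ((∫ x, U x * deriv (fun y => y * φ2 η k y) x : ℝ) : ℂ) =
    𝓕 (PU U η) k + 𝓕 (PU U (fun x => x * deriv η x)) k +
      k * 𝓕 (fun x : ℝ => (-2 * Real.pi * Complex.I * x) • PU U η x) k := by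
  have hd : ∀ x, HasDerivAt η (deriv η x) x := fun x =>
    (hη.1.differentiable (by simp) x).hasDerivAt
  have d1 : ∀ x, deriv (fun y => y * φ1 η k y) x = η x * Real.cos (2 * Real.pi * k * x) +
      x * (deriv η x * Real.cos (2 * Real.pi * k * x) -
        η x * (Real.sin (2 * Real.pi * k * x) * (2 * Real.pi * k))) := by
    intro x
    have h1 : HasDerivAt (fun y => 2 * Real.pi * k * y) (2 * Real.pi * k) x := by
      simpa using (hasDerivAt_id x).const_mul (2 * Real.pi * k)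
    have h2 := (hasDerivAt_id x).mul ((hd x).mul h1.cos)
    have h3 : (fun y => y * φ1 η k y) = (id * (η * fun y => Real.cos (2 * Real.pi * k * y))) := by
      funext y; simp [φ1]
    rw [h3, h2.deriv]
    simp only [id]
    simp only [Pi.mul_apply]
    ring
  have d2 : ∀ x, deriv (fun y => y * φ2 η k y) x = η x * Real.sin (2 * Real.pi * k * x) +
      x * (deriv η x * Real.sin (2 * Real.pi * k * x) +
        η x * (Real.cos (2 * Real.pi * k * x) * (2 * Real.pi * k))) := by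
    intro x
    have h1 : HasDerivAt (fun y => 2 * Real.pi * k * y) (2 * Real.pi * k) x := by
      simpa using (hasDerivAt_id x).const_mul (2 * Real.pi * k)
    have h2 := (hasDerivAt_id x).mul ((hd x).mul h1.sin)
    have h3 : (fun y => y * φ2 η k y) = (id * (η * fun y => Real.sin (2 * Real.pi * k * y))) := by
      funext y; simp [φ2]
    rw [h3, h2.deriv]
    simp only [id]
    simp only [Pi.mul_apply]
    ring
  have hi : ∀ φ : ℝ → ℝ, Wt b φ → Integrable (fun x => U x * deriv (fun y => y * φ y) x) := by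
    intro φ hφ
    have h1 : ContDiff ℝ ∞ (fun y => y * φ y) := contDiff_id.mul hφ.1
    have h2 : HasCompactSupport (fun y => y * φ y) := hφ.2.1.mul_left
    exact Wt.pint hU hM (h1.continuous_deriv (by simp)) h2.deriv
  have i1 := hi _ (hη.φ1 k)
  have i2 := hi _ (hη.φ2 k)
  have i1c : Integrable (fun x => ((U x * deriv (fun y => y * φ1 η k y) x : ℝ) : ℂ)) := i1.ofReal
  have i2c : Integrable (fun x =>
    Complex.I * ((U x * deriv (fun y => y * φ2 η k y) x : ℝ) : ℂ)) := i2.ofReal.const_mul _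
  have eb : ∀ f : ℝ → ℂ, Integrable f → Integrable (fun x => ee k x * f x) := fun f hf =>
    hf.bdd_mul (ee_cont k).aestronglyMeasurable (c := 1)
      (Eventually.of_forall fun x => (ee_norm k x).le)
  have hx := xeta hη
  have hxe : Integrable (fun x : ℝ => (-2 * Real.pi * Complex.I * x) • PU U η x) := by
    have h1 : Integrable (fun x => ((U x * (x * η x) : ℝ) : ℂ)) :=
      (Wt.pint hU hM (continuous_id.mul hη.1.continuous) (hη.2.1.mul_left)).ofReal
    refine (h1.const_mul (-2 * Real.pi * Complex.I)).congr (Eventually.of_forall fun x => ?_)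
    simp only [PU, smul_eq_mul]; push_cast; ring
  have j1 := eb _ (pu_int hU hM hη.1.continuous hη.2.1)
  have j2 := eb _ (pu_int hU hM hx.1.continuous hx.2.1)
  have j3 := (eb _ hxe).const_mul (k:ℂ)
  have j12 : Integrable (fun x => ee k x * PU U η x + ee k x * PU U (fun x => x * deriv η x) x) :=
    j1.add j2
  rw [← integral_complex_ofReal, ← integral_complex_ofReal, ← integral_const_mul,
    ← integral_sub i1c i2c, ft_eq, ft_eq, ft_eq, ← integral_const_mul, ← integral_add j1 j2,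
    ← integral_add j12 j3]
  congr 1; funext x
  rw [d1, d2, ee_cs]
  simp only [PU, smul_eq_mul]
  push_cast
  ring_nf
  rw [Complex.I_sq]
  ring

lemma ft_conj (η : ℝ → ℝ) (k : ℝ) : ‖𝓕 (PU U η) (-k)‖ = ‖𝓕 (PU U η) k‖ := by
  have h1 : 𝓕 (PU U η) (-k) = (starRingEnd ℂ) (𝓕 (PU U η) k) := by
    rw [ft_eq, ft_eq, ← integral_conj]
    congr 1; funext x
    rw [map_mul]
    congr 1
    · unfold ee
      rw [← Complex.exp_conj]
      congr 1
      rw [map_mul, Complex.conj_ofReal, Complex.conj_I]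
      push_cast; ring
    · unfold PU; rw [Complex.conj_ofReal]
  rw [h1, RCLike.norm_conj]

/-- The gain of regularity. -/
theorem step (hs : 0 < s) (hs1 : s < 1) {c : ℝ} (hc : 0 < c) (hU : Measurable U)
    (hM : ∀ x, |U x| ≤ M)
    (hE : ∀ φ, Wt b φ → 1 / (2 * s) * (∫ x, U x * deriv (fun y => y * φ y) x) +
      c * ∫ x, U x * fl s φ x = 0)
    {m : ℝ} (hm : 0 ≤ m) (hD : DD b U m) : DD b U (m + s) := by
  intro η hη
  obtain ⟨C1, hC10, hC1⟩ := EE_bound hs hs1 hU hM hm hD hη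
  obtain ⟨C2, hC20, hC2⟩ := hD _ (xeta hη)
  have hpi := pu_int hU hM hη.1.continuous hη.2.1
  have hpx : Integrable (fun x : ℝ => x • PU U η x) := by
    have h1 : Integrable (fun x => ((U x * (x * η x) : ℝ) : ℂ)) :=
      (Wt.pint hU hM (continuous_id.mul hη.1.continuous) (hη.2.1.mul_left)).ofReal
    refine h1.congr (Eventually.of_forall fun x => ?_)
    simp only [PU, Complex.real_smul]; push_cast; ring
  have hder := fun k => Real.hasDerivAt_fourier hpi hpx k
  have hc1 := c1_pos hs hs1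
  obtain ⟨B, hB⟩ : ∃ B, B = ∫ x, ‖PU U η x‖ := ⟨_, rfl⟩
  have hBd : ∀ k, ‖𝓕 (PU U η) k‖ ≤ B := by
    intro k
    rw [hB]
    exact VectorFourier.norm_fourierIntegral_le_integral_norm _ _ _ _ _
  obtain ⟨K, hK0, hK⟩ := ode_decay (g := 𝓕 (PU U η))
    (g' := fun k => 𝓕 (fun x : ℝ => (-2 * Real.pi * Complex.I * x) • PU U η x) k)
    (a := c * c1 s) (s := s) (m := m) (B := B) (C := C2 + 2 * s * c * C1)
    (by positivity) hs hs1 hm hBd (fun k _ => hder k) (by positivity) (fun k hk => by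
      have e1 := hE _ (hη.φ1 k)
      have e2 := hE _ (hη.φ2 k)
      have hp := (pair_eq hs hs1 hη hU hM hk).2
      have ht := trans_eq hη hU hM k
      obtain ⟨R, hR⟩ : ∃ R, R = ∫ h in Ioi (0:ℝ), EE U η k h / ((h ^ (1 + 2 * s) : ℝ) : ℂ) :=
        ⟨_, rfl⟩
      rw [← hR] at hp
      obtain ⟨T1, hT1⟩ : ∃ T1, T1 = ∫ x, U x * deriv (fun y => y * φ1 η k y) x := ⟨_, rfl⟩
      obtain ⟨T2, hT2⟩ : ∃ T2, T2 = ∫ x, U x * deriv (fun y => y * φ2 η k y) x := ⟨_, rfl⟩
      obtain ⟨P1, hP1⟩ : ∃ P1, P1 = ∫ x, U x * fl s (φ1 η k) x := ⟨_, rfl⟩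
      obtain ⟨P2, hP2⟩ : ∃ P2, P2 = ∫ x, U x * fl s (φ2 η k) x := ⟨_, rfl⟩
      rw [← hT1, ← hT2] at ht
      rw [← hP1, ← hP2] at hp
      rw [← hT1, ← hP1] at e1
      rw [← hT2, ← hP2] at e2
      have f1 : T1 = -(2 * s * c * P1) := by
        have : 1 / (2 * s) * T1 = -(c * P1) := by linarith
        have h2s : (2 * s) * (1 / (2 * s) * T1) = T1 := by field_simp
        rw [← h2s, this]; ring
      have f2 : T2 = -(2 * s * c * P2) := by
        have : 1 / (2 * s) * T2 = -(c * P2) := by linarith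
        have h2s : (2 * s) * (1 / (2 * s) * T2) = T2 := by field_simp
        rw [← h2s, this]; ring
      have key : 𝓕 (PU U η) k + k * 𝓕 (fun x : ℝ => (-2 * Real.pi * Complex.I * x) • PU U η x) k +
          ((2 * s * (c * c1 s) * k ^ (2 * s) : ℝ) : ℂ) * 𝓕 (PU U η) k =
          -𝓕 (PU U (fun x => x * deriv η x)) k - ((2 * s * c : ℝ) : ℂ) * R := by
        have g1 : (T1 : ℂ) - Complex.I * (T2 : ℂ) =
            -(((2 * s * c : ℝ) : ℂ) * ((P1 : ℂ) - Complex.I * (P2 : ℂ))) := by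
          rw [f1, f2]; push_cast; ring
        rw [hp, ht] at g1
        have g2 := eq_sub_of_add_eq' g1
        push_cast at g1 ⊢
        linear_combination g1
      rw [key]
      have n1 := hC2 k
      have n2 := hC1 k hk
      rw [← hR] at n2
      rw [abs_of_pos hk] at n1
      have hk1 : 1 ≤ 1 + k := by linarith
      have n3 : (1 + k) ^ (-m) ≤ (1 + k) ^ (s - m) :=
        Real.rpow_le_rpow_of_exponent_le hk1 (by linarith)
      calc ‖-𝓕 (PU U (fun x => x * deriv η x)) k - ((2 * s * c : ℝ) : ℂ) * R‖ ≤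
          ‖𝓕 (PU U (fun x => x * deriv η x)) k‖ + 2 * s * c * ‖R‖ := by
            refine (norm_sub_le _ _).trans (le_of_eq ?_)
            rw [norm_neg, norm_mul, Complex.norm_real, Real.norm_eq_abs,
              abs_of_pos (by positivity : 0 < 2 * s * c)]
        _ ≤ C2 * (1 + k) ^ (s - m) + 2 * s * c * (C1 * (1 + k) ^ (s - m)) := by
            gcongr
            exact n1.trans (mul_le_mul_of_nonneg_left n3 hC20)
        _ = _ := by ring)
  refine ⟨K, hK0, fun k => ?_⟩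
  rcases le_total 0 k with h | h
  · rw [abs_of_nonneg h]; exact hK k h
  · have h1 := hK (-k) (by linarith)
    rw [abs_of_nonpos h, ← ft_conj]
    exact h1

end Pool.Agent.R217.NF
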